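import Pool.Agent.Helper44.LC.Star

/-!
# Link cliques of `K_4^3`-free 3-graphs: counting
-/

set_option autoImplicit false
set_option linter.unusedSectionVars false
open Finset
open scoped Classical

namespace Pool.Agent.Helper44.LC

variable {V : Type} [Fintype V] [DecidableEq V]

/-- No four vertices span all four triples. -/
def KF (H : Finset (Finset V)) : Prop :=
  ∀ S : Finset V, S.card = 4 → ∃ e ⊆ S, e.card = 3 ∧ e ∉ H

/-- `A` is a clique of the link graph of `v`. -/
def LinkClique (H : Finset (Finset V)) (v : V) (A : Finset V) : Prop :=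
  ∀ x ∈ A, ∀ y ∈ A, x ≠ y → ({v, x, y} : Finset V) ∈ H

/-- `x` lies in a chosen link clique of `v`. -/
def Arc (C : V → Finset (Finset V)) (v x : V) : Prop := x ≠ v ∧ ∃ A ∈ C v, x ∈ A

/-- an arc which is not in a 2-cycle -/
def Art (C : V → Finset (Finset V)) (v x : V) : Prop := Arc C v x ∧ ¬ Arc C x v

theorem art_oriented (C : V → Finset (Finset V)) (x y : V) : Art C x y → ¬ Art C y x :=
  fun h h' => h.2 h'.1

/-- The standing assumptions. -/
structure Setup (H : Finset (Finset V)) (C : V → Finset (Finset V)) (m : ℕ) : Prop where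
  h3 : ∀ e ∈ H, e.card = 3
  hK : KF H
  hC : ∀ v, ∀ A ∈ C v, LinkClique H v A
  hm : ∀ v, (C v).card ≤ m

theorem card3 {a b c : V} : ({a, b, c} : Finset V).card = 3 ↔ a ≠ b ∧ a ≠ c ∧ b ≠ c := by
  constructor
  · intro h
    refine ⟨?_, ?_, ?_⟩
    · rintro rfl
      have : ({a, a, c} : Finset V).card ≤ 2 := by
        rw [Finset.insert_eq_of_mem (by simp)]
        exact Finset.card_le_two
      omega
    · rintro rfl
      have : ({a, b, a} : Finset V).card ≤ 2 := by
        rw [Finset.insert_eq_of_mem (by simp)]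
        exact Finset.card_le_two
      omega
    · rintro rfl
      have : ({a, b, b} : Finset V).card ≤ 2 := by
        rw [Finset.pair_eq_singleton]
        exact Finset.card_le_two
      omega
  · rintro ⟨h1, h2, h3⟩
    exact Finset.card_eq_three.mpr ⟨a, b, c, h1, h2, h3, rfl⟩

section
variable {H : Finset (Finset V)} {C : V → Finset (Finset V)} {m : ℕ}

theorem Setup.ne (hS : Setup H C m) {a b c : V} (h : ({a, b, c} : Finset V) ∈ H) :
    a ≠ b ∧ a ≠ c ∧ b ≠ c := card3.mp (hS.h3 _ h)

theorem Setup.no4 (hS : Setup H C m) {a b c d : V} (h1 : ({a, b, c} : Finset V) ∈ H)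
    (h2 : ({a, b, d} : Finset V) ∈ H) (h3 : ({a, c, d} : Finset V) ∈ H)
    (h4 : ({b, c, d} : Finset V) ∈ H) : False := by
  obtain ⟨n1, n2, n3⟩ := hS.ne h1
  obtain ⟨-, n4, n5⟩ := hS.ne h2
  obtain ⟨-, -, n6⟩ := hS.ne h3
  have hcard : ({a, b, c, d} : Finset V).card = 4 := by
    rw [Finset.card_insert_of_notMem (by simp [n1, n2, n4]), card3.mpr ⟨n3, n5, n6⟩]
  obtain ⟨e, he, he3, heH⟩ := hS.hK _ hcard
  have hmiss : ∃ x ∈ ({a, b, c, d} : Finset V), e = ({a, b, c, d} : Finset V).erase x := by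
    have h5 : (({a, b, c, d} : Finset V) \ e).card = 1 := by
      rw [Finset.card_sdiff_of_subset he, hcard, he3]
    obtain ⟨x, hx⟩ := Finset.card_eq_one.mp h5
    have hxm : x ∈ ({a, b, c, d} : Finset V) \ e := by rw [hx]; simp
    refine ⟨x, (Finset.mem_sdiff.mp hxm).1, ?_⟩
    apply Finset.eq_of_subset_of_card_le
    · intro y hy
      refine Finset.mem_erase.mpr ⟨?_, he hy⟩
      rintro rfl
      exact (Finset.mem_sdiff.mp hxm).2 hy
    · rw [Finset.card_erase_of_mem (Finset.mem_sdiff.mp hxm).1, hcard, he3]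
  obtain ⟨x, hx, rfl⟩ := hmiss
  simp only [Finset.mem_insert, Finset.mem_singleton] at hx
  apply heH
  rcases hx with rfl | rfl | rfl | rfl
  · rw [Finset.erase_insert (by simp [n1, n2, n4])]; exact h4
  · have : ({a, x, c, d} : Finset V).erase x = {a, c, d} := by
      ext y; simp only [Finset.mem_erase, Finset.mem_insert, Finset.mem_singleton]
      constructor
      · rintro ⟨h, h' | h' | h' | h'⟩ <;> tauto
      · rintro (rfl | rfl | rfl)
        · exact ⟨n1, by tauto⟩
        · exact ⟨n3.symm, by tauto⟩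
        · exact ⟨n5.symm, by tauto⟩
    rw [this]; exact h3
  · have : ({a, b, x, d} : Finset V).erase x = {a, b, d} := by
      ext y; simp only [Finset.mem_erase, Finset.mem_insert, Finset.mem_singleton]
      constructor
      · rintro ⟨h, h' | h' | h' | h'⟩ <;> tauto
      · rintro (rfl | rfl | rfl)
        · exact ⟨n2, by tauto⟩
        · exact ⟨n3, by tauto⟩
        · exact ⟨n6.symm, by tauto⟩
    rw [this]; exact h2
  · have : ({a, b, c, x} : Finset V).erase x = {a, b, c} := by
      ext y; simp only [Finset.mem_erase, Finset.mem_insert, Finset.mem_singleton]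
      constructor
      · rintro ⟨h, h' | h' | h' | h'⟩ <;> tauto
      · rintro (rfl | rfl | rfl)
        · exact ⟨n4, by tauto⟩
        · exact ⟨n5, by tauto⟩
        · exact ⟨n6, by tauto⟩
    rw [this]; exact h1

/-- a union over pairs of sets of families of at most `m` members, each with one element -/
theorem card_two_le {α : Type} (S T : Finset α) (hS : S.card ≤ m) (hT : T.card ≤ m)
    (R : α → α → V → Prop)
    (h1 : ∀ a ∈ S, ∀ b ∈ T, ∀ y y', R a b y → R a b y' → y = y') :
    (univ.filter fun y => ∃ a ∈ S, ∃ b ∈ T, R a b y).card ≤ m ^ 2 := by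
  have hsub : (univ.filter fun y => ∃ a ∈ S, ∃ b ∈ T, R a b y) ⊆
      S.biUnion fun a => T.biUnion fun b => univ.filter fun y => R a b y := by
    intro y hy
    simp only [mem_filter, mem_univ, true_and] at hy
    obtain ⟨a, ha, b, hb, h⟩ := hy
    simp only [mem_biUnion, mem_filter, mem_univ, true_and]
    exact ⟨a, ha, b, hb, h⟩
  refine (Finset.card_le_card hsub).trans ?_
  have h2 : ∀ a ∈ S, (T.biUnion fun b => univ.filter fun y => R a b y).card ≤ m := by
    intro a ha
    refine (Finset.card_biUnion_le_card_mul _ _ 1 ?_).trans (by rw [mul_one]; exact hT)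
    intro b hb
    rw [Finset.card_le_one]
    intro y hy y' hy'
    simp only [mem_filter, mem_univ, true_and] at hy hy'
    exact h1 a ha b hb y y' hy hy'
  refine (Finset.card_biUnion_le_card_mul _ _ m h2).trans ?_
  rw [sq]
  exact Nat.mul_le_mul_right _ hS

/-- counting triples by their first two entries -/
theorem card_triples_le (P : V → V → V → Prop) (k : ℕ)
    (h : ∀ x y, (univ.filter fun z => P x y z).card ≤ k) :
    ((univ : Finset (V × V × V)).filter fun p => P p.1 p.2.1 p.2.2).card ≤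
      Fintype.card V ^ 2 * k := by
  rw [Finset.card_filter, Fintype.sum_prod_type]
  have h1 : ∀ x : V, ∑ q : V × V, (if P x q.1 q.2 then 1 else 0) ≤ Fintype.card V * k := by
    intro x
    rw [Fintype.sum_prod_type]
    have h2 : ∀ y : V, ∑ z : V, (if P x y z then 1 else 0) ≤ k := by
      intro y
      rw [← Finset.card_filter]
      exact h x y
    refine (Finset.sum_le_sum fun y _ => h2 y).trans ?_
    simp
  refine (Finset.sum_le_sum fun x _ => h1 x).trans ?_
  simp only [sum_const, card_univ, smul_eq_mul]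
  apply le_of_eq; ring

/-- ordered pairs of members of a common link clique -/
def Zp (C : V → Finset (Finset V)) (v x y : V) : Prop := x ≠ y ∧ ∃ A ∈ C v, x ∈ A ∧ y ∈ A

theorem Setup.zp_mem (hS : Setup H C m) {v x y : V} (h : Zp C v x y) :
    ({v, x, y} : Finset V) ∈ H := by
  obtain ⟨hxy, A, hA, hx, hy⟩ := h
  exact hS.hC v A hA x hx y hy hxy

theorem Zp.symm {v x y : V} (h : Zp C v x y) : Zp C v y x :=
  ⟨h.1.symm, by obtain ⟨A, hA, hx, hy⟩ := h.2; exact ⟨A, hA, hy, hx⟩⟩

theorem Setup.zp_arc (hS : Setup H C m) {v x y : V} (h : Zp C v x y) : Arc C v x := by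
  have h1 := (hS.ne (hS.zp_mem h)).1
  obtain ⟨hxy, A, hA, hx, hy⟩ := h
  exact ⟨h1.symm, A, hA, hx⟩

/-- Few arcs inside link cliques. -/
theorem Setup.E1 (hS : Setup H C m) :
    ((univ : Finset (V × V × V)).filter fun p => Zp C p.1 p.2.1 p.2.2 ∧ Arc C p.2.1 p.2.2).card ≤
      Fintype.card V ^ 2 * m ^ 2 := by
  suffices hh : ∀ v x, (univ.filter fun y => Zp C v x y ∧ Arc C x y).card ≤ m ^ 2 by
    have := card_triples_le (fun v x y => Zp C v x y ∧ Arc C x y) (m ^ 2)
      (fun v x => by convert hh v x)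
    convert this
  intro v x
  refine le_trans (Finset.card_le_card ?_) (card_two_le (C v) (C x) (hS.hm v) (hS.hm x)
    (fun A B y => x ≠ y ∧ x ∈ A ∧ y ∈ A ∧ y ∈ B) ?_)
  · intro y hy
    simp only [mem_filter, mem_univ, true_and] at hy ⊢
    obtain ⟨⟨hxy, A, hA, hx, hyA⟩, -, B, hB, hyB⟩ := hy
    exact ⟨A, hA, B, hB, hxy, hx, hyA, hyB⟩
  · rintro A hA B hB y y' ⟨h1, h2, h3, h4⟩ ⟨h1', -, h3', h4'⟩
    by_contra hne
    refine hS.no4 (a := v) (b := x) (c := y) (d := y') ?_ ?_ ?_ ?_
    · exact hS.hC v A hA x h2 y h3 h1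
    · exact hS.hC v A hA x h2 y' h3' h1'
    · exact hS.hC v A hA y h3 y' h3' hne
    · exact hS.hC x B hB y h4 y' h4' hne

/-- For two vertices, few vertices form an edge with them and receive arcs from both. -/
theorem Setup.common (hS : Setup H C m) (x y : V) :
    (univ.filter fun v => ({v, x, y} : Finset V) ∈ H ∧ Arc C x v ∧ Arc C y v).card ≤ m ^ 2 := by
  refine le_trans (Finset.card_le_card ?_) (card_two_le (C x) (C y) (hS.hm x) (hS.hm y)
    (fun B B' v => ({v, x, y} : Finset V) ∈ H ∧ v ∈ B ∧ v ∈ B') ?_)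
  · intro v hv
    simp only [mem_filter, mem_univ, true_and] at hv ⊢
    obtain ⟨h0, ⟨-, B, hB, hvB⟩, -, B', hB', hvB'⟩ := hv
    exact ⟨B, hB, B', hB', h0, hvB, hvB'⟩
  · rintro B hB B' hB' v v' ⟨h1, h2, h3⟩ ⟨h1', h2', h3'⟩
    by_contra hne
    refine hS.no4 (a := x) (b := y) (c := v) (d := v') ?_ ?_ ?_ ?_
    · have : ({x, y, v} : Finset V) = {v, x, y} := by
        ext z; simp only [mem_insert, mem_singleton]; tauto
      rw [this]; exact h1
    · have : ({x, y, v'} : Finset V) = {v', x, y} := by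
        ext z; simp only [mem_insert, mem_singleton]; tauto
      rw [this]; exact h1'
    · exact hS.hC x B hB v h2 v' h2' hne
    · exact hS.hC y B' hB' v h3 v' h3' hne

/-- The 2-cycles of the digraph. -/
noncomputable def dig (C : V → Finset (Finset V)) : Finset (V × V) :=
  univ.filter fun p => Arc C p.1 p.2 ∧ Arc C p.2 p.1

/-- the members of `A` in 2-cycles with `v` -/
noncomputable def dA (C : V → Finset (Finset V)) (v : V) (A : Finset V) : Finset V :=
  A.filter fun x => x ≠ v ∧ Arc C x v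

theorem dig_le (C : V → Finset (Finset V)) : (dig C).card ≤ ∑ v, ∑ A ∈ C v, (dA C v A).card := by
  unfold dig
  rw [Finset.card_filter, Fintype.sum_prod_type]
  refine Finset.sum_le_sum fun v _ => ?_
  rw [← Finset.card_filter]
  refine le_trans (Finset.card_le_card ?_) (Finset.card_biUnion_le (s := C v) (t := dA C v))
  intro x hx
  simp only [mem_filter, mem_univ, true_and] at hx
  obtain ⟨⟨hxv, A, hA, hxA⟩, h2⟩ := hx
  simp only [mem_biUnion, dA, mem_filter]
  exact ⟨A, hA, hxA, hxv, h2⟩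

theorem Setup.dA_pairs (hS : Setup H C m) :
    ∑ v, ∑ A ∈ C v, (dA C v A).offDiag.card ≤ Fintype.card V ^ 2 * m ^ 3 := by
  have h1 : ∀ v, ∑ A ∈ C v, (dA C v A).offDiag.card ≤
      m * (univ.filter fun q : V × V => ({v, q.1, q.2} : Finset V) ∈ H ∧
        Arc C q.1 v ∧ Arc C q.2 v).card := by
    intro v
    refine (Finset.sum_le_card_nsmul _ _ (univ.filter fun q : V × V =>
      ({v, q.1, q.2} : Finset V) ∈ H ∧ Arc C q.1 v ∧ Arc C q.2 v).card ?_).trans ?_
    · intro A hA
      apply Finset.card_le_card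
      rintro ⟨x, y⟩ hq
      simp only [mem_offDiag, dA, mem_filter] at hq
      obtain ⟨⟨hx, -, hx2⟩, ⟨hy, -, hy2⟩, hxy⟩ := hq
      simp only [mem_filter, mem_univ, true_and]
      exact ⟨hS.hC v A hA x hx y hy hxy, hx2, hy2⟩
    · rw [smul_eq_mul]
      exact Nat.mul_le_mul_right _ (hS.hm v)
  refine (Finset.sum_le_sum fun v _ => h1 v).trans ?_
  rw [← Finset.mul_sum]
  have h2 : ∑ v, (univ.filter fun q : V × V => ({v, q.1, q.2} : Finset V) ∈ H ∧
        Arc C q.1 v ∧ Arc C q.2 v).card =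
      ∑ q : V × V, (univ.filter fun v => ({v, q.1, q.2} : Finset V) ∈ H ∧
        Arc C q.1 v ∧ Arc C q.2 v).card := by
    simp only [Finset.card_filter]
    rw [Finset.sum_comm]
  rw [h2]
  have h3 : ∑ q : V × V, (univ.filter fun v => ({v, q.1, q.2} : Finset V) ∈ H ∧
        Arc C q.1 v ∧ Arc C q.2 v).card ≤ Fintype.card V ^ 2 * m ^ 2 := by
    refine (Finset.sum_le_sum fun q _ => hS.common q.1 q.2).trans ?_
    simp only [sum_const, card_univ, Fintype.card_prod, smul_eq_mul]
    apply le_of_eq; ring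
  calc m * ∑ q : V × V, (univ.filter fun v => ({v, q.1, q.2} : Finset V) ∈ H ∧
        Arc C q.1 v ∧ Arc C q.2 v).card ≤ m * (Fintype.card V ^ 2 * m ^ 2) :=
        Nat.mul_le_mul_left _ h3
    _ = Fintype.card V ^ 2 * m ^ 3 := by ring

/-- Few 2-cycles. -/
theorem Setup.dig_card (hS : Setup H C m) (M : ℕ) :
    M * (dig C).card ≤ M ^ 2 * (Fintype.card V * m) + Fintype.card V ^ 2 * m ^ 3 := by
  refine (Nat.mul_le_mul_left M (dig_le C)).trans ?_
  have h1 : ∀ d : ℕ, M * d ≤ M ^ 2 + (d * d - d) := by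
    intro d
    rcases Nat.eq_zero_or_pos d with h | h
    · subst h; simp
    · obtain ⟨e, rfl⟩ : ∃ e, d = e + 1 := ⟨d - 1, by omega⟩
      have : (e + 1) * (e + 1) - (e + 1) = e * (e + 1) := by
        rw [Nat.sub_eq_iff_eq_add (Nat.le_mul_self _)]; ring
      rw [this]
      rcases Nat.lt_or_ge e M with h2 | h2
      · have : M * (e + 1) ≤ M * M := Nat.mul_le_mul_left _ h2
        nlinarith
      · have : M * (e + 1) ≤ e * (e + 1) := Nat.mul_le_mul_right _ h2
        nlinarith [Nat.zero_le (M ^ 2)]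
  rw [Finset.mul_sum]
  have h2 : ∀ v, M * ∑ A ∈ C v, (dA C v A).card ≤
      M ^ 2 * m + ∑ A ∈ C v, (dA C v A).offDiag.card := by
    intro v
    rw [Finset.mul_sum]
    have h3 : ∀ A ∈ C v, M * (dA C v A).card ≤ M ^ 2 + (dA C v A).offDiag.card := by
      intro A _
      rw [Finset.offDiag_card]
      exact h1 _
    refine (Finset.sum_le_sum h3).trans ?_
    rw [Finset.sum_add_distrib, sum_const, smul_eq_mul, mul_comm]
    gcongr
    exact hS.hm v
  refine (Finset.sum_le_sum fun v _ => h2 v).trans ?_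
  rw [Finset.sum_add_distrib, sum_const, card_univ, smul_eq_mul]
  have := hS.dA_pairs
  calc Fintype.card V * (M ^ 2 * m) + ∑ v, ∑ A ∈ C v, (dA C v A).offDiag.card
      ≤ Fintype.card V * (M ^ 2 * m) + Fintype.card V ^ 2 * m ^ 3 := by gcongr
    _ = M ^ 2 * (Fintype.card V * m) + Fintype.card V ^ 2 * m ^ 3 := by ring

/-- The edges covered by a link clique. -/
def Cov (C : V → Finset (Finset V)) (e : Finset V) : Prop :=
  ∃ v ∈ e, ∃ A ∈ C v, e.erase v ⊆ A

theorem Setup.cov_zp (hS : Setup H C m) {e : Finset V} (he : e ∈ H) {v : V} (hv : v ∈ e)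
    {A : Finset V} (hA : A ∈ C v) (hsub : e.erase v ⊆ A) :
    ∃ x y, Zp C v x y ∧ e = {v, x, y} := by
  have h1 : (e.erase v).card = 2 := by
    rw [Finset.card_erase_of_mem hv, hS.h3 e he]
  obtain ⟨x, y, hxy, h2⟩ := Finset.card_eq_two.mp h1
  refine ⟨x, y, ⟨hxy, A, hA, hsub (by rw [h2]; simp), hsub (by rw [h2]; simp)⟩, ?_⟩
  rw [← Finset.insert_erase hv, h2]

theorem Setup.two_cov (hS : Setup H C m) :
    2 * (H.filter (Cov C)).card ≤
      ((univ : Finset (V × V × V)).filter fun p => Zp C p.1 p.2.1 p.2.2).card := by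
  set Z := (univ : Finset (V × V × V)).filter fun p => Zp C p.1 p.2.1 p.2.2 with hZ
  have h1 : ∀ e ∈ H.filter (Cov C), 2 ≤ (Z.filter fun p => ({p.1, p.2.1, p.2.2} : Finset V) = e).card := by
    intro e he
    obtain ⟨he, v, hv, A, hA, hsub⟩ := Finset.mem_filter.mp he
    obtain ⟨x, y, hz, rfl⟩ := hS.cov_zp he hv hA hsub
    have hne : ((v, x, y) : V × V × V) ≠ (v, y, x) := by
      intro h
      simp only [Prod.mk.injEq, true_and] at h
      exact hz.1 h.1
    rw [← Finset.card_pair hne]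
    apply Finset.card_le_card
    intro p hp
    simp only [mem_insert, mem_singleton] at hp
    rw [Finset.mem_filter]
    rcases hp with rfl | rfl
    · exact ⟨by rw [hZ]; simp only [mem_filter, mem_univ, true_and]; exact hz, rfl⟩
    · refine ⟨by rw [hZ]; simp only [mem_filter, mem_univ, true_and]; exact hz.symm, ?_⟩
      ext z; simp only [mem_insert, mem_singleton]; tauto
  have h2 : ∑ e ∈ H.filter (Cov C), (Z.filter fun p => ({p.1, p.2.1, p.2.2} : Finset V) = e).card
      ≤ Z.card := by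
    rw [← Finset.card_biUnion]
    · exact Finset.card_le_card (Finset.biUnion_subset.mpr fun e _ => Finset.filter_subset _ _)
    · intro e _ e' _ hne
      rw [Function.onFun, Finset.disjoint_left]
      intro p hp hp'
      exact hne ((Finset.mem_filter.mp hp).2.symm.trans (Finset.mem_filter.mp hp').2)
  have h3 := Finset.card_nsmul_le_sum _ _ 2 h1
  rw [smul_eq_mul, mul_comm] at h3
  exact h3.trans h2

/-- The covered edges: the main combinatorial estimate. -/
theorem Setup.cov_card (hS : Setup H C m) :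
    2 * (H.filter (Cov C)).card ≤
      ((univ : Finset (V × V × V)).filter fun p => Out (Art C) p.1 p.2.1 p.2.2).card +
        2 * (Fintype.card V ^ 2 * m ^ 2) + 2 * ((dig C).card * Fintype.card V) := by
  refine hS.two_cov.trans ?_
  have hsub : ((univ : Finset (V × V × V)).filter fun p => Zp C p.1 p.2.1 p.2.2) ⊆
      ((((univ.filter fun p => Out (Art C) p.1 p.2.1 p.2.2) ∪
        (univ.filter fun p => Zp C p.1 p.2.1 p.2.2 ∧ Arc C p.2.1 p.2.2)) ∪
        (univ.filter fun p => Zp C p.1 p.2.2 p.2.1 ∧ Arc C p.2.2 p.2.1)) ∪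
        (univ.filter fun p => (p.1, p.2.1) ∈ dig C)) ∪
        (univ.filter fun p => (p.1, p.2.2) ∈ dig C) := by
    rintro ⟨v, x, y⟩ hp
    simp only [mem_filter, mem_univ, true_and, mem_union, dig] at hp ⊢
    have hx := hS.zp_arc hp
    have hy := hS.zp_arc hp.symm
    by_cases h1 : Arc C x y
    · exact Or.inl (Or.inl (Or.inl (Or.inr ⟨hp, h1⟩)))
    by_cases h2 : Arc C y x
    · exact Or.inl (Or.inl (Or.inr ⟨hp.symm, h2⟩))
    by_cases h3 : Arc C x v
    · exact Or.inl (Or.inr ⟨hx, h3⟩)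
    by_cases h4 : Arc C y v
    · exact Or.inr ⟨hy, h4⟩
    exact Or.inl (Or.inl (Or.inl (Or.inl ⟨⟨hx, h3⟩, ⟨hy, h4⟩, fun h => h1 h.1, fun h => h2 h.1⟩)))
  refine (Finset.card_le_card hsub).trans ?_
  have e1 := hS.E1
  have e2 : ((univ : Finset (V × V × V)).filter fun p =>
      Zp C p.1 p.2.2 p.2.1 ∧ Arc C p.2.2 p.2.1).card ≤ Fintype.card V ^ 2 * m ^ 2 := by
    refine le_trans ?_ e1
    refine Finset.card_le_card_of_injOn (fun p => (p.1, p.2.2, p.2.1)) ?_ ?_
    · intro p hp
      simp only [coe_filter, mem_univ, true_and, Set.mem_ofPred_eq] at hp ⊢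
      exact hp
    · rintro ⟨a, b, c⟩ _ ⟨a', b', c'⟩ _ h
      simp only [Prod.mk.injEq] at h ⊢
      tauto
  have e3 : ((univ : Finset (V × V × V)).filter fun p => (p.1, p.2.1) ∈ dig C).card ≤
      (dig C).card * Fintype.card V := by
    have : (dig C).card * Fintype.card V = ((dig C) ×ˢ (univ : Finset V)).card := by
      rw [Finset.card_product, card_univ]
    rw [this]
    refine Finset.card_le_card_of_injOn (fun p => ((p.1, p.2.1), p.2.2)) ?_ ?_
    · intro p hp
      simp only [coe_filter, mem_univ, true_and, Set.mem_ofPred_eq, coe_product, coe_univ,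
        Set.mem_prod, Set.mem_univ, and_true, mem_coe] at hp ⊢
      exact hp
    · rintro ⟨a, b, c⟩ _ ⟨a', b', c'⟩ _ h
      simp only [Prod.mk.injEq] at h ⊢
      tauto
  have e4 : ((univ : Finset (V × V × V)).filter fun p => (p.1, p.2.2) ∈ dig C).card ≤
      (dig C).card * Fintype.card V := by
    have : (dig C).card * Fintype.card V = ((dig C) ×ˢ (univ : Finset V)).card := by
      rw [Finset.card_product, card_univ]
    rw [this]
    refine Finset.card_le_card_of_injOn (fun p => ((p.1, p.2.2), p.2.1)) ?_ ?_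
    · intro p hp
      simp only [coe_filter, mem_univ, true_and, Set.mem_ofPred_eq, coe_product, coe_univ,
        Set.mem_prod, Set.mem_univ, and_true, mem_coe] at hp ⊢
      exact hp
    · rintro ⟨a, b, c⟩ _ ⟨a', b', c'⟩ _ h
      simp only [Prod.mk.injEq] at h ⊢
      tauto
  refine (Finset.card_union_le _ _).trans ?_
  refine (Nat.add_le_add_right (Finset.card_union_le _ _) _).trans ?_
  refine (Nat.add_le_add_right (Nat.add_le_add_right (Finset.card_union_le _ _) _) _).trans ?_
  refine (Nat.add_le_add_right (Nat.add_le_add_right (Nat.add_le_add_right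
    (Finset.card_union_le _ _) _) _) _).trans ?_
  omega

/-- edges containing a 2-cycle -/
theorem Setup.dig_edges (hS : Setup H C m) :
    (H.filter fun e => ∃ x ∈ e, ∃ y ∈ e, (x, y) ∈ dig C).card ≤ (dig C).card * Fintype.card V := by
  have h0 : (dig C).card * Fintype.card V = ((dig C) ×ˢ (univ : Finset V)).card := by
    rw [Finset.card_product, card_univ]
  rw [h0]
  refine le_trans (Finset.card_le_card ?_) (Finset.card_image_le (s := (dig C) ×ˢ (univ : Finset V))
    (f := fun p => ({p.1.1, p.1.2, p.2} : Finset V)))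
  intro e he
  obtain ⟨he, x, hx, y, hy, hxy⟩ := Finset.mem_filter.mp he
  have hne : x ≠ y := by
    rintro rfl
    simp only [dig, mem_filter, mem_univ, true_and] at hxy
    exact hxy.1.1 rfl
  have h1 : ((e.erase x).erase y).card = 1 := by
    rw [Finset.card_erase_of_mem (Finset.mem_erase.mpr ⟨hne.symm, hy⟩),
      Finset.card_erase_of_mem hx, hS.h3 e he]
  obtain ⟨z, hz⟩ := Finset.card_eq_one.mp h1
  rw [Finset.mem_image]
  refine ⟨((x, y), z), by simp [hxy], ?_⟩
  rw [← Finset.insert_erase hx, ← Finset.insert_erase (Finset.mem_erase.mpr ⟨hne.symm, hy⟩), hz]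

/-- edges with a vertex receiving two arcs -/
theorem Setup.in_edges (hS : Setup H C m) :
    (H.filter fun e => ∃ x ∈ e, ∃ y ∈ e, ∃ z ∈ e, y ≠ z ∧ Arc C y x ∧ Arc C z x).card ≤
      Fintype.card V ^ 2 * m ^ 2 := by
  have h1 := card_triples_le (V := V) (fun y z x => ({x, y, z} : Finset V) ∈ H ∧
    Arc C y x ∧ Arc C z x) (m ^ 2) (fun y z => by convert hS.common y z)
  refine le_trans ?_ h1
  refine le_trans (Finset.card_le_card ?_) (Finset.card_image_le
    (f := fun p : V × V × V => ({p.2.2, p.1, p.2.1} : Finset V)))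
  intro e he
  obtain ⟨he, x, hx, y, hy, z, hz, hyz, h2, h3⟩ := Finset.mem_filter.mp he
  have hxy : x ≠ y := h2.1
  have hxz : x ≠ z := h3.1
  have heq : e = {x, y, z} := by
    symm
    apply Finset.eq_of_subset_of_card_le
    · intro w hw
      simp only [mem_insert, mem_singleton] at hw
      rcases hw with rfl | rfl | rfl
      · exact hx
      · exact hy
      · exact hz
    · rw [hS.h3 e he, card3.mpr ⟨hxy, hxz, hyz⟩]
  rw [Finset.mem_image]
  refine ⟨(y, z, x), ?_, heq.symm⟩
  simp only [mem_filter, mem_univ, true_and]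
  exact ⟨heq ▸ he, h2, h3⟩

/-- edges covered at two vertices -/
theorem Setup.double_edges (hS : Setup H C m) :
    (H.filter fun e => ∃ v ∈ e, ∃ x ∈ e, v ≠ x ∧ (∃ A ∈ C v, e.erase v ⊆ A) ∧
      ∃ A ∈ C x, e.erase x ⊆ A).card ≤ Fintype.card V ^ 2 * m ^ 2 := by
  refine le_trans ?_ hS.E1
  refine le_trans (Finset.card_le_card ?_) (Finset.card_image_le
    (f := fun p : V × V × V => ({p.1, p.2.1, p.2.2} : Finset V)))
  intro e he
  obtain ⟨he, v, hv, x, hx, hvx, ⟨A, hA, hsA⟩, B, hB, hsB⟩ := Finset.mem_filter.mp he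
  have h1 : ((e.erase v).erase x).card = 1 := by
    rw [Finset.card_erase_of_mem (Finset.mem_erase.mpr ⟨hvx.symm, hx⟩),
      Finset.card_erase_of_mem hv, hS.h3 e he]
  obtain ⟨y, hy⟩ := Finset.card_eq_one.mp h1
  have hy1 : y ∈ (e.erase v).erase x := by rw [hy]; simp
  have hyx : y ≠ x := (Finset.mem_erase.mp hy1).1
  have hyv : y ≠ v := (Finset.mem_erase.mp (Finset.mem_erase.mp hy1).2).1
  have hye : y ∈ e := (Finset.mem_erase.mp (Finset.mem_erase.mp hy1).2).2
  rw [Finset.mem_image]
  refine ⟨(v, x, y), ?_, ?_⟩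
  · simp only [mem_filter, mem_univ, true_and]
    refine ⟨⟨hyx.symm, A, hA, hsA (Finset.mem_erase.mpr ⟨hvx.symm, hx⟩),
      hsA (Finset.mem_erase.mpr ⟨hyv, hye⟩)⟩, hyx, B, hB, hsB (Finset.mem_erase.mpr ⟨hyx, hye⟩)⟩
  · rw [← Finset.insert_erase hv, ← Finset.insert_erase (Finset.mem_erase.mpr ⟨hvx.symm, hx⟩), hy]

end

end Pool.Agent.Helper44.LC
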