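import Pool.Agent.Helper44.LC.Count
import Pool.Agent.Helper35.FdM.Main

/-!
# `K_4^3`-free sub-3-graphs of Fon-der-Flaass 3-graphs, unweighted form
-/

set_option autoImplicit false
set_option linter.unusedSectionVars false
set_option linter.unusedSimpArgs false
open Finset
open scoped Classical

namespace Pool.Agent.Helper44.LC

open Pool.Agent.H122R2.FdF Pool.Agent.Helper35.FdM

variable {V : Type} [Fintype V] [DecidableEq V]

/-- every vertex of `e` is joined to another one, and no vertex sends arcs to both others -/
def InCon (R : V → V → Prop) (e : Finset V) : Prop :=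
  ∀ x ∈ e, (∃ y ∈ e, y ≠ x ∧ (R x y ∨ R y x)) ∧ ∃ y ∈ e, y ≠ x ∧ ¬ R x y

/-- at least six ordered triples for every three-element set -/
theorem six_le (G : Finset (Finset V)) (h3 : ∀ e ∈ G, e.card = 3) :
    6 * G.card ≤ ((univ : Finset (V × V × V)).filter fun p =>
      ({p.1, p.2.1, p.2.2} : Finset V) ∈ G).card := by
  set Z := (univ : Finset (V × V × V)).filter fun p => ({p.1, p.2.1, p.2.2} : Finset V) ∈ G with hZ
  have h1 : ∀ e ∈ G, 6 ≤ (Z.filter fun p => ({p.1, p.2.1, p.2.2} : Finset V) = e).card := by
    intro e he
    let f : Fin 3 ≃ e := (Finset.equivFinOfCardEq (h3 e he)).symm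
    let g : Equiv.Perm (Fin 3) → V × V × V := fun σ => ((f (σ 0) : V), (f (σ 1) : V), (f (σ 2) : V))
    have hcard : (univ : Finset (Equiv.Perm (Fin 3))).card = 6 := by
      rw [card_univ, Fintype.card_perm, Fintype.card_fin]; rfl
    rw [← hcard]
    refine Finset.card_le_card_of_injOn g ?_ ?_
    · intro σ _
      have key : ({(f (σ 0) : V), (f (σ 1) : V), (f (σ 2) : V)} : Finset V) = e := by
        ext w
        simp only [mem_insert, mem_singleton]
        constructor
        · rintro (rfl | rfl | rfl)
          · exact (f _).2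
          · exact (f _).2
          · exact (f _).2
        · intro hw
          obtain ⟨i, hi⟩ := f.surjective ⟨w, hw⟩
          obtain ⟨j, hj⟩ := σ.surjective i
          have h0 : w = (f (σ j) : V) := by rw [hj, hi]
          clear hj
          fin_cases j
          · exact Or.inl h0
          · exact Or.inr (Or.inl h0)
          · exact Or.inr (Or.inr h0)
      rw [Finset.mem_coe, Finset.mem_filter, hZ, Finset.mem_filter]
      exact ⟨⟨mem_univ _, by simp only [g]; rw [key]; exact he⟩, key⟩
    · intro σ _ τ _ h
      simp only [g, Prod.mk.injEq] at h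
      obtain ⟨h0, h1, h2⟩ := h
      have e0 : σ 0 = τ 0 := f.injective (Subtype.ext h0)
      have e1 : σ 1 = τ 1 := f.injective (Subtype.ext h1)
      have e2 : σ 2 = τ 2 := f.injective (Subtype.ext h2)
      ext i
      fin_cases i
      · simp [e0]
      · simp [e1]
      · simp [e2]
  have h2 : ∑ e ∈ G, (Z.filter fun p => ({p.1, p.2.1, p.2.2} : Finset V) = e).card ≤ Z.card := by
    rw [← Finset.card_biUnion]
    · exact Finset.card_le_card (Finset.biUnion_subset.mpr fun e _ => Finset.filter_subset _ _)
    · intro e _ e' _ hne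
      rw [Function.onFun, Finset.disjoint_left]
      intro p hp hp'
      exact hne ((Finset.mem_filter.mp hp).2.symm.trans (Finset.mem_filter.mp hp').2)
  have h4 := Finset.card_nsmul_le_sum _ _ 6 h1
  rw [smul_eq_mul, mul_comm] at h4
  exact h4.trans h2

theorem fdf_sub (R : V → V → Prop) (hO : ∀ x y, R x y → ¬ R y x) (G : Finset (Finset V))
    (h3 : ∀ e ∈ G, e.card = 3) (hK : KF G) (hG : ∀ e ∈ G, InCon R e) :
    (G.card : ℝ) ≤ 5 / 54 * (Fintype.card V : ℝ) ^ 3 := by
  have hirr : ∀ x, ¬ R x x := fun x h => hO x x h h
  rcases isEmpty_or_nonempty V with hV | hV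
  · have : G = ∅ := by
      rw [Finset.eq_empty_iff_forall_notMem]
      intro e he
      have := h3 e he
      obtain ⟨x, y, z, -, -, -, -⟩ := Finset.card_eq_three.mp this
      exact hV.elim x
    rw [this]; simp
  set n : ℝ := (Fintype.card V : ℝ) with hn
  have hn0 : 0 < n := by rw [hn]; exact_mod_cast Fintype.card_pos
  let K : V → V → V → Prop := fun a b c => PT R a b c ∧ ({a, b, c} : Finset V) ∉ G
  have hS : Setup G (fun _ : V => (∅ : Finset (Finset V))) 0 :=
    ⟨h3, hK, fun v A hA => absurd hA (by simp), fun v => by simp⟩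
  have hmarks : Marks R K := by
    refine ⟨?_, ?_, ?_, ?_⟩
    · rintro a b c ⟨h1, h2⟩
      refine ⟨?_, ?_⟩
      · unfold PT at h1 ⊢; tauto
      · rwa [show ({b, a, c} : Finset V) = {a, b, c} by
          ext z; simp only [mem_insert, mem_singleton]; tauto]
    · rintro a b c ⟨h1, h2⟩
      refine ⟨?_, ?_⟩
      · unfold PT at h1 ⊢; tauto
      · rwa [show ({a, c, b} : Finset V) = {a, b, c} by
          ext z; simp only [mem_insert, mem_singleton]; tauto]
    · rintro a b c ⟨h1, -⟩; exact h1
    · intro a b c d hab hbc hcd hda hac hca hbd hdb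
      by_contra hcon
      push Not at hcon
      obtain ⟨k1, k2, k3, k4⟩ := hcon
      have p1 : ({a, b, c} : Finset V) ∈ G := by
        by_contra h
        exact k1 ⟨Or.inl ⟨hab, hbc, hac, hca⟩, h⟩
      have p2 : ({b, c, d} : Finset V) ∈ G := by
        by_contra h
        exact k2 ⟨Or.inl ⟨hbc, hcd, hbd, hdb⟩, h⟩
      have p3 : ({c, d, a} : Finset V) ∈ G := by
        by_contra h
        exact k3 ⟨Or.inl ⟨hcd, hda, hca, hac⟩, h⟩
      have p4 : ({d, a, b} : Finset V) ∈ G := by
        by_contra h
        exact k4 ⟨Or.inl ⟨hda, hab, hdb, hbd⟩, h⟩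
      refine hS.no4 (a := a) (b := b) (c := c) (d := d) p1 ?_ ?_ p2
      · rwa [show ({a, b, d} : Finset V) = {d, a, b} by
          ext z; simp only [mem_insert, mem_singleton]; tauto]
      · rwa [show ({a, c, d} : Finset V) = {c, d, a} by
          ext z; simp only [mem_insert, mem_singleton]; tauto]
  have hmain := main_marked R K (fun _ => 1 / n) hO hmarks (fun _ => by positivity)
    (by simp only [sum_const, card_univ, nsmul_eq_mul]; rw [← hn]; field_simp)
  -- pointwise bound
  have hpt : ∀ a b c : V, H R a b c + kk K a b c ≤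
      1 - (if ({a, b, c} : Finset V) ∈ G then (1 : ℝ) else 0) := by
    intro a b c
    by_cases hmem : ({a, b, c} : Finset V) ∈ G
    · rw [if_pos hmem]
      obtain ⟨nab, nac, nbc⟩ := card3.mp (h3 _ hmem)
      have hk0 : kk K a b c = 0 := by
        unfold kk
        rw [if_neg]
        rintro ⟨-, h⟩
        exact h hmem
      have hcon := hG _ hmem
      obtain ⟨⟨ya, hya, hya1, hya2⟩, za, hza, hza1, hza2⟩ := hcon a (by simp)
      obtain ⟨⟨yb, hyb, hyb1, hyb2⟩, zb, hzb, hzb1, hzb2⟩ := hcon b (by simp)
      obtain ⟨⟨yc, hyc, hyc1, hyc2⟩, zc, hzc, hzc1, hzc2⟩ := hcon c (by simp)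
      simp only [mem_insert, mem_singleton] at hya hza hyb hzb hyc hzc
      have qa : (R a b ∨ R b a) ∨ (R a c ∨ R c a) := by
        rcases hya with rfl | rfl | rfl
        · exact absurd rfl hya1
        · exact Or.inl hya2
        · exact Or.inr hya2
      have qb : (R a b ∨ R b a) ∨ (R b c ∨ R c b) := by
        rcases hyb with rfl | rfl | rfl
        · exact Or.inl hyb2.symm
        · exact absurd rfl hyb1
        · exact Or.inr hyb2
      have qc : (R a c ∨ R c a) ∨ (R b c ∨ R c b) := by
        rcases hyc with rfl | rfl | rfl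
        · exact Or.inl hyc2.symm
        · exact Or.inr hyc2.symm
        · exact absurd rfl hyc1
      have ra : ¬ R a b ∨ ¬ R a c := by
        rcases hza with rfl | rfl | rfl
        · exact absurd rfl hza1
        · exact Or.inl hza2
        · exact Or.inr hza2
      have rb : ¬ R b a ∨ ¬ R b c := by
        rcases hzb with rfl | rfl | rfl
        · exact Or.inl hzb2
        · exact absurd rfl hzb1
        · exact Or.inr hzb2
      have rc : ¬ R c a ∨ ¬ R c b := by
        rcases hzc with rfl | rfl | rfl
        · exact Or.inl hzc2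
        · exact Or.inr hzc2
        · exact absurd rfl hzc1
      rw [hk0]
      unfold H N A
      by_cases e1 : R a b <;> by_cases e2 : R b a <;> by_cases e3 : R a c <;>
        by_cases e4 : R c a <;> by_cases e5 : R b c <;> by_cases e6 : R c b <;>
        simp only [e1, e2, e3, e4, e5, e6, or_true, or_false, true_or, false_or, not_true_eq_false,
          not_false_eq_true, if_true, if_false, or_self] at qa qb qc ra rb rc ⊢ <;> norm_num
    · rw [if_neg hmem, sub_zero]
      by_cases hP : PT R a b c
      · have hk1 : kk K a b c = 1 := by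
          unfold kk
          rw [if_pos ⟨hP, hmem⟩]
        have hH : H R a b c = 0 := by
          unfold PT Path3 at hP
          have o1 := hO a b
          have o2 := hO a c
          have o3 := hO b c
          unfold H N A
          by_cases e1 : R a b <;> by_cases e2 : R b a <;> by_cases e3 : R a c <;>
            by_cases e4 : R c a <;> by_cases e5 : R b c <;> by_cases e6 : R c b <;>
            simp only [e1, e2, e3, e4, e5, e6, or_true, or_false, true_or, false_or, and_true,
              and_false, true_and, false_and, not_true_eq_false, imp_false,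
              not_false_eq_true, if_true, if_false, or_self, and_self, forall_const]
              at hP o1 o2 o3 ⊢ <;> norm_num
        rw [hk1, hH]; norm_num
      · have hk1 : kk K a b c = 0 := by
          unfold kk
          rw [if_neg]
          rintro ⟨h, -⟩; exact hP h
        rw [hk1, add_zero]
        have o1 := hO a b
        have o2 := hO a c
        have o3 := hO b c
        unfold H N A
        by_cases e1 : R a b <;> by_cases e2 : R b a <;> by_cases e3 : R a c <;>
          by_cases e4 : R c a <;> by_cases e5 : R b c <;> by_cases e6 : R c b <;>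
          simp only [e1, e2, e3, e4, e5, e6, or_true, or_false, true_or, false_or, and_true,
            and_false, true_and, false_and, not_true_eq_false, imp_false,
            not_false_eq_true, if_true, if_false, or_self, and_self, forall_const]
            at o1 o2 o3 ⊢ <;> norm_num
  have hsum : T R (fun _ => 1 / n) + Mk K (fun _ => 1 / n) ≤
      1 - 6 * (G.card : ℝ) / n ^ 3 := by
    have e1 : T R (fun _ => 1 / n) + Mk K (fun _ => 1 / n) =
        ∑ a, ∑ b, ∑ c, (1 / n ^ 3) * (H R a b c + kk K a b c) := by
      unfold T Mk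
      rw [← Finset.sum_add_distrib]
      refine Finset.sum_congr rfl fun a _ => ?_
      rw [← Finset.sum_add_distrib]
      refine Finset.sum_congr rfl fun b _ => ?_
      rw [← Finset.sum_add_distrib]
      refine Finset.sum_congr rfl fun c _ => ?_
      field_simp
    rw [e1]
    have e2 : ∑ a, ∑ b, ∑ c, (1 / n ^ 3) * (H R a b c + kk K a b c) ≤
        ∑ a, ∑ b, ∑ c, (1 / n ^ 3) * (1 - (if ({a, b, c} : Finset V) ∈ G then (1 : ℝ) else 0)) := by
      refine Finset.sum_le_sum fun a _ => Finset.sum_le_sum fun b _ =>
        Finset.sum_le_sum fun c _ => ?_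
      exact mul_le_mul_of_nonneg_left (hpt a b c) (by positivity)
    refine e2.trans ?_
    simp only [← Finset.mul_sum, Finset.sum_sub_distrib]
    have e3 : ∑ a : V, ∑ b : V, ∑ c : V, (if ({a, b, c} : Finset V) ∈ G then (1 : ℝ) else 0) =
        (((univ : Finset (V × V × V)).filter fun p =>
          ({p.1, p.2.1, p.2.2} : Finset V) ∈ G).card : ℝ) := by
      rw [Finset.card_filter]
      push_cast
      rw [Fintype.sum_prod_type]
      refine Finset.sum_congr rfl fun a _ => ?_
      rw [Fintype.sum_prod_type]
    rw [e3]
    have e4 : (6 * G.card : ℝ) ≤ (((univ : Finset (V × V × V)).filter fun p =>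
          ({p.1, p.2.1, p.2.2} : Finset V) ∈ G).card : ℝ) := by
      exact_mod_cast six_le G h3
    simp only [sum_const, card_univ, nsmul_eq_mul, mul_one]
    rw [← hn]
    have e5 : 1 / n ^ 3 * (n * (n * n) - (((univ : Finset (V × V × V)).filter fun p =>
          ({p.1, p.2.1, p.2.2} : Finset V) ∈ G).card : ℝ)) ≤
        1 / n ^ 3 * (n * (n * n) - 6 * (G.card : ℝ)) := by
      apply mul_le_mul_of_nonneg_left _ (by positivity)
      linarith
    refine e5.trans (le_of_eq ?_)
    field_simp
  have h5 : 4 / 9 ≤ 1 - 6 * (G.card : ℝ) / n ^ 3 := hmain.trans hsum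
  have h6 : 6 * (G.card : ℝ) / n ^ 3 ≤ 5 / 9 := by linarith
  rw [div_le_iff₀ (by positivity)] at h6
  linarith

end Pool.Agent.Helper44.LC
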