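import Pool.Agent.Helper44.LC.Main

/-!
# Local colourings
-/

set_option autoImplicit false
set_option linter.unusedSectionVars false
open Finset
open scoped Classical

namespace Pool.Agent.Helper44.LC

variable {V : Type} [Fintype V] [DecidableEq V] {α : Type}

/-- The triples in which some vertex sees the two others in the same colour. -/
noncomputable def Seen (col : V → V → α) : Finset (Finset V) :=
  (univ.powersetCard 3).filter fun e => ∃ v ∈ e, ∃ x ∈ e, ∃ y ∈ e,
    x ≠ y ∧ x ≠ v ∧ y ≠ v ∧ col v x = col v y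

/-- the vertices which `v` sees in the colour of `x` -/
noncomputable def cls (col : V → V → α) (v x : V) : Finset V :=
  univ.filter fun y => y ≠ v ∧ col v y = col v x

/-- the large classes -/
noncomputable def big (col : V → V → α) (m : ℕ) (v : V) : Finset (Finset V) :=
  ((univ.filter fun x => x ≠ v).image (cls col v)).filter fun A => Fintype.card V ≤ m * A.card

theorem mem_Seen {col : V → V → α} {e : Finset V} : e ∈ Seen col ↔ e.card = 3 ∧
    ∃ v ∈ e, ∃ x ∈ e, ∃ y ∈ e, x ≠ y ∧ x ≠ v ∧ y ≠ v ∧ col v x = col v y := by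
  unfold Seen
  rw [Finset.mem_filter, Finset.mem_powersetCard]
  constructor
  · rintro ⟨⟨-, h⟩, h'⟩; exact ⟨h, h'⟩
  · rintro ⟨h, h'⟩; exact ⟨⟨Finset.subset_univ _, h⟩, h'⟩

theorem seen_card {col : V → V → α} {e : Finset V} (he : e ∈ Seen col) : e.card = 3 :=
  (Finset.mem_powersetCard.mp (Finset.mem_filter.mp he).1).2

theorem big_card (col : V → V → α) (m : ℕ) (hm : 1 ≤ m) (v : V) : (big col m v).card ≤ m := by
  by_contra hcon
  push Not at hcon
  have hV : 0 < Fintype.card V := Fintype.card_pos_iff.mpr ⟨v⟩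
  -- the large classes are disjoint
  have hdisj : ∀ A ∈ big col m v, ∀ B ∈ big col m v, A ≠ B → Disjoint (id A) (id B) := by
    intro A hA B hB hAB
    simp only [big, mem_filter, mem_image, mem_univ, true_and] at hA hB
    obtain ⟨⟨x, hx, rfl⟩, -⟩ := hA
    obtain ⟨⟨y, hy, rfl⟩, -⟩ := hB
    rw [Finset.disjoint_left]
    intro z hz hz'
    simp only [id, cls, mem_filter, mem_univ, true_and] at hz hz'
    apply hAB
    ext w
    simp only [cls, mem_filter, mem_univ, true_and]
    rw [← hz.2, ← hz'.2]
  have h1 : ∑ A ∈ big col m v, A.card ≤ Fintype.card V := by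
    have h2 := Finset.card_biUnion hdisj
    simp only [id] at h2
    rw [← h2]
    exact Finset.card_le_univ _
  have h3 : (big col m v).card * Fintype.card V ≤ m * ∑ A ∈ big col m v, A.card := by
    rw [Finset.mul_sum]
    have h4 : ∀ A ∈ big col m v, Fintype.card V ≤ m * A.card := fun A hA =>
      (Finset.mem_filter.mp hA).2
    have := Finset.card_nsmul_le_sum _ _ _ h4
    rwa [smul_eq_mul] at this
  have h5 : (big col m v).card * Fintype.card V ≤ m * Fintype.card V :=
    h3.trans (Nat.mul_le_mul_left _ h1)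
  have h6 := Nat.le_of_mul_le_mul_right h5 hV
  omega

theorem seen_setup (col : V → V → α) (m : ℕ) (hm : 1 ≤ m) (hK : KF (Seen col)) :
    Setup (Seen col) (big col m) m := by
  refine ⟨fun e he => seen_card he, hK, ?_, fun v => big_card col m hm v⟩
  intro v A hA x hx y hy hxy
  simp only [big, mem_filter, mem_image, mem_univ, true_and] at hA
  obtain ⟨⟨z, hz, rfl⟩, -⟩ := hA
  simp only [cls, mem_filter, mem_univ, true_and] at hx hy
  unfold Seen
  rw [Finset.mem_filter, Finset.mem_powersetCard]
  refine ⟨⟨Finset.subset_univ _, card3.mpr ⟨hx.1.symm, hy.1.symm, hxy⟩⟩, v, by simp, x, by simp,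
    y, by simp, hxy, hx.1, hy.1, ?_⟩
  rw [hx.2, hy.2]

theorem seen_small (col : V → V → α) (m : ℕ) (hm : 1 ≤ m) :
    m * ((Seen col).filter fun e => ¬ Cov (big col m) e).card ≤ Fintype.card V ^ 3 := by
  set n := Fintype.card V with hn
  -- ordered triples in small classes
  have h1 : ((univ : Finset (V × V × V)).filter fun p => p.2.1 ≠ p.1 ∧
      m * (cls col p.1 p.2.1).card < n ∧ p.2.2 ∈ cls col p.1 p.2.1).card * m ≤ n ^ 3 := by
    rw [Finset.card_filter, Fintype.sum_prod_type, Finset.sum_mul]
    have h2 : ∀ v : V, (∑ q : V × V, (if q.1 ≠ v ∧ m * (cls col v q.1).card < n ∧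
        q.2 ∈ cls col v q.1 then 1 else 0)) * m ≤ n * n := by
      intro v
      rw [Fintype.sum_prod_type, Finset.sum_mul]
      have h3 : ∀ x : V, (∑ y : V, (if x ≠ v ∧ m * (cls col v x).card < n ∧
          y ∈ cls col v x then 1 else 0)) * m ≤ n := by
        intro x
        by_cases h : x ≠ v ∧ m * (cls col v x).card < n
        · have h4 : (∑ y : V, (if x ≠ v ∧ m * (cls col v x).card < n ∧
              y ∈ cls col v x then 1 else 0)) = (cls col v x).card := by
            rw [← Finset.card_filter]
            congr 1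
            ext y
            simp only [mem_filter, mem_univ, true_and]
            tauto
          rw [h4, mul_comm]
          exact h.2.le
        · have h4 : (∑ y : V, (if x ≠ v ∧ m * (cls col v x).card < n ∧
              y ∈ cls col v x then 1 else 0)) = 0 := by
            refine Finset.sum_eq_zero fun y _ => ?_
            rw [if_neg]
            tauto
          rw [h4, zero_mul]
          exact Nat.zero_le _
      refine (Finset.sum_le_sum fun x _ => h3 x).trans ?_
      simp [hn]
    refine (Finset.sum_le_sum fun v _ => ?_).trans (?_ : ∑ _v : V, n * n ≤ _)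
    · exact h2 v
    · simp only [sum_const, card_univ, smul_eq_mul]
      rw [← hn]; apply le_of_eq; ring
  refine le_trans ?_ h1
  rw [mul_comm]
  apply Nat.mul_le_mul_right
  refine le_trans (Finset.card_le_card ?_) (Finset.card_image_le
    (f := fun p : V × V × V => ({p.1, p.2.1, p.2.2} : Finset V)))
  intro e he
  obtain ⟨he, hnc⟩ := Finset.mem_filter.mp he
  have he3 := seen_card he
  obtain ⟨-, v, hv, x, hx, y, hy, hxy, hxv, hyv, hcol⟩ := Finset.mem_filter.mp he
  have heq : e = {v, x, y} := by
    symm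
    apply Finset.eq_of_subset_of_card_le
    · intro w hw
      simp only [mem_insert, mem_singleton] at hw
      rcases hw with rfl | rfl | rfl
      · exact hv
      · exact hx
      · exact hy
    · rw [he3, card3.mpr ⟨hxv.symm, hyv.symm, hxy⟩]
  rw [Finset.mem_image]
  refine ⟨(v, x, y), ?_, heq.symm⟩
  simp only [mem_filter, mem_univ, true_and]
  refine ⟨hxv, ?_, ?_⟩
  · by_contra hlt
    push Not at hlt
    apply hnc
    refine ⟨v, hv, cls col v x, ?_, ?_⟩
    · simp only [big, mem_filter, mem_image, mem_univ, true_and]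
      exact ⟨⟨x, hxv, rfl⟩, hlt⟩
    · intro w hw
      rw [heq] at hw
      simp only [mem_erase, mem_insert, mem_singleton] at hw
      simp only [cls, mem_filter, mem_univ, true_and]
      rcases hw.2 with rfl | rfl | rfl
      · exact absurd rfl hw.1
      · exact ⟨hxv, rfl⟩
      · exact ⟨hyv, hcol.symm⟩
  · simp only [cls, mem_filter, mem_univ, true_and]
    exact ⟨hyv, hcol.symm⟩

/-- The upper bound for local colourings. -/
theorem upperL (ε : ℝ) (hε : 0 < ε) : ∃ N : ℕ, ∀ (V : Type) [Fintype V] [DecidableEq V] (α : Type)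
    (col : V → V → α), N ≤ Fintype.card V → KF (Seen col) →
    ((Seen col).card : ℝ) ≤ (cst + ε) * ((Fintype.card V : ℝ) ^ 3 / 6) := by
  obtain ⟨δ, hδ, h⟩ := upperA (ε / 2) (by positivity)
  set m : ℕ := ⌈12 / ε⌉₊ + 1 with hm
  have hm1 : 1 ≤ m := by omega
  have hm2 : 12 / ε ≤ (m : ℝ) := by
    have := Nat.le_ceil (12 / ε)
    rw [hm]; push_cast; linarith
  refine ⟨⌈(m : ℝ) ^ 4 / δ⌉₊, fun V _ _ α col hN hK => ?_⟩
  set n : ℝ := (Fintype.card V : ℝ) with hn
  have hn0 : 0 ≤ n := by rw [hn]; positivity
  have h1 : (m : ℝ) ^ 4 ≤ δ * n := by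
    have h2 : (m : ℝ) ^ 4 / δ ≤ n := by
      refine (Nat.le_ceil _).trans ?_
      rw [hn]; exact_mod_cast hN
    rw [div_le_iff₀ hδ] at h2; linarith
  have h3 := (h V (Seen col) (big col m) m (seen_setup col m hm1 hK) h1).1
  have h4 := seen_small col m hm1
  have h5 : (m : ℝ) * ((Seen col).filter fun e => ¬ Cov (big col m) e).card ≤ n ^ 3 := by
    rw [hn]; exact_mod_cast h4
  have h6 : (((Seen col).filter fun e => ¬ Cov (big col m) e).card : ℝ) ≤ ε / 12 * n ^ 3 := by
    have hm0 : (0 : ℝ) < m := by exact_mod_cast hm1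
    have h7 : (((Seen col).filter fun e => ¬ Cov (big col m) e).card : ℝ) ≤ n ^ 3 / m := by
      rw [le_div_iff₀ hm0]; linarith
    refine h7.trans ?_
    rw [div_le_iff₀ hm0]
    have h8 : 1 ≤ ε / 12 * (m : ℝ) := by
      rw [div_le_iff₀ hε] at hm2; linarith
    have h9 : 0 ≤ n ^ 3 := by positivity
    nlinarith
  have h10 : (Seen col).card = ((Seen col).filter (Cov (big col m))).card +
      ((Seen col).filter fun e => ¬ Cov (big col m) e).card := by
    rw [Finset.card_filter_add_card_filter_not]
  rw [h10]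
  push_cast
  linarith

end Pool.Agent.Helper44.LC
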