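import Pool.Agent.Helper44.LC.Fdf

/-!
# Link cliques: the upper bounds
-/

set_option autoImplicit false
set_option linter.unusedSectionVars false
open Finset
open scoped Classical

namespace Pool.Agent.Helper44.LC

/-- The error terms are small. -/
theorem err (η : ℝ) (hη : 0 < η) : ∃ δ : ℝ, 0 < δ ∧ ∀ (V : Type) [Fintype V] [DecidableEq V]
    (H : Finset (Finset V)) (C : V → Finset (Finset V)) (m : ℕ), Setup H C m →
    (m : ℝ) ^ 4 ≤ δ * Fintype.card V →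
    (Fintype.card V : ℝ) ^ 2 * (m : ℝ) ^ 2 + ((dig C).card : ℝ) * Fintype.card V ≤
      η * (Fintype.card V : ℝ) ^ 3 := by
  set e : ℝ := min 1 (η / 3) with he
  have he0 : 0 < e := lt_min one_pos (by positivity)
  have he1 : e ≤ 1 := min_le_left _ _
  have he2 : e ≤ η / 3 := min_le_right _ _
  refine ⟨e ^ 2 / 4, by positivity, ?_⟩
  intro V _ _ H C m hS hm
  set n : ℝ := (Fintype.card V : ℝ) with hn
  have hn0 : 0 ≤ n := by rw [hn]; positivity
  set d : ℝ := ((dig C).card : ℝ) with hd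
  have hm0 : (0 : ℝ) ≤ m := by positivity
  set M : ℕ := ⌈(m : ℝ) ^ 3 / e⌉₊ + 1 with hM
  have hM1 : (m : ℝ) ^ 3 / e ≤ M := by
    have := Nat.le_ceil ((m : ℝ) ^ 3 / e)
    rw [hM]; push_cast; linarith
  have hM2 : (M : ℝ) ≤ (m : ℝ) ^ 3 / e + 2 := by
    have := Nat.ceil_lt_add_one (a := (m : ℝ) ^ 3 / e) (by positivity)
    rw [hM]; push_cast; linarith
  have hM0 : (0 : ℝ) < M := by
    have : 0 < M := by omega
    exact_mod_cast this
  have h1 : (M : ℝ) * d ≤ (M : ℝ) ^ 2 * (n * m) + n ^ 2 * (m : ℝ) ^ 3 := by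
    have := hS.dig_card M
    rw [hn, hd]
    exact_mod_cast this
  have h2 : (m : ℝ) ^ 3 ≤ e * M := by
    rw [div_le_iff₀ he0] at hM1; linarith
  have h3 : d ≤ (M : ℝ) * (n * m) + e * n ^ 2 := by
    have h4 : (M : ℝ) * d ≤ (M : ℝ) * ((M : ℝ) * (n * m) + e * n ^ 2) := by
      have h5 : n ^ 2 * (m : ℝ) ^ 3 ≤ n ^ 2 * (e * M) :=
        mul_le_mul_of_nonneg_left h2 (by positivity)
      nlinarith
    exact le_of_mul_le_mul_left h4 hM0
  have hpow : (m : ℝ) ≤ (m : ℝ) ^ 4 ∧ (m : ℝ) ^ 2 ≤ (m : ℝ) ^ 4 := by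
    rcases Nat.eq_zero_or_pos m with h | h
    · subst h; simp
    · have h1' : (1 : ℝ) ≤ m := by exact_mod_cast h
      constructor
      · calc (m : ℝ) = (m : ℝ) ^ 1 := (pow_one _).symm
          _ ≤ (m : ℝ) ^ 4 := pow_le_pow_right₀ h1' (by norm_num)
      · exact pow_le_pow_right₀ h1' (by norm_num)
  have h6 : (M : ℝ) * m ≤ (e / 4 + e ^ 2 / 2) * n := by
    have h7 : (M : ℝ) * m ≤ ((m : ℝ) ^ 3 / e + 2) * m := mul_le_mul_of_nonneg_right hM2 hm0
    have h8 : ((m : ℝ) ^ 3 / e + 2) * m = (m : ℝ) ^ 4 / e + 2 * m := by ring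
    have h9 : (m : ℝ) ^ 4 / e ≤ e / 4 * n := by
      rw [div_le_iff₀ he0]
      calc (m : ℝ) ^ 4 ≤ e ^ 2 / 4 * n := hm
        _ = e / 4 * n * e := by ring
    have h10 : 2 * (m : ℝ) ≤ e ^ 2 / 2 * n := by
      have := hpow.1.trans hm
      linarith
    linarith
  have h11 : d ≤ (e / 4 + e ^ 2 / 2 + e) * n ^ 2 := by
    have : (M : ℝ) * (n * m) ≤ (e / 4 + e ^ 2 / 2) * n * n := by
      calc (M : ℝ) * (n * m) = (M : ℝ) * m * n := by ring
        _ ≤ (e / 4 + e ^ 2 / 2) * n * n := mul_le_mul_of_nonneg_right h6 hn0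
    nlinarith
  have h12 : n ^ 2 * (m : ℝ) ^ 2 ≤ e ^ 2 / 4 * n ^ 3 := by
    calc n ^ 2 * (m : ℝ) ^ 2 ≤ n ^ 2 * (e ^ 2 / 4 * n) :=
          mul_le_mul_of_nonneg_left (hpow.2.trans hm) (by positivity)
      _ = e ^ 2 / 4 * n ^ 3 := by ring
  have h13 : d * n ≤ (e / 4 + e ^ 2 / 2 + e) * n ^ 3 := by
    calc d * n ≤ (e / 4 + e ^ 2 / 2 + e) * n ^ 2 * n := mul_le_mul_of_nonneg_right h11 hn0
      _ = (e / 4 + e ^ 2 / 2 + e) * n ^ 3 := by ring
  have h14 : e ^ 2 ≤ e := by nlinarith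
  have h15 : (0 : ℝ) ≤ n ^ 3 := by positivity
  have h16 : e ^ 2 / 4 + (e / 4 + e ^ 2 / 2 + e) ≤ η := by linarith
  nlinarith

/-- every vertex of `e` is joined to another one by an arc, in one direction or in both -/
def Jn {V : Type} [DecidableEq V] (C : V → Finset (Finset V)) (e : Finset V) : Prop :=
  ∀ x ∈ e, ∃ y ∈ e, y ≠ x ∧ (Arc C x y ∨ Arc C y x)

/-- covered at two vertices -/
def Dbl {V : Type} [DecidableEq V] (C : V → Finset (Finset V)) (e : Finset V) : Prop :=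
  ∃ v ∈ e, ∃ x ∈ e, v ≠ x ∧ (∃ A ∈ C v, e.erase v ⊆ A) ∧ ∃ A ∈ C x, e.erase x ⊆ A

theorem upperA (ε : ℝ) (hε : 0 < ε) : ∃ δ : ℝ, 0 < δ ∧ ∀ (V : Type) [Fintype V] [DecidableEq V]
    (H : Finset (Finset V)) (C : V → Finset (Finset V)) (m : ℕ), Setup H C m →
    (m : ℝ) ^ 4 ≤ δ * Fintype.card V →
    ((H.filter (Cov C)).card : ℝ) ≤ (cst + ε) * ((Fintype.card V : ℝ) ^ 3 / 6) ∧
    ((H.filter (Jn C)).card : ℝ) ≤ (5 / 9 + ε) * ((Fintype.card V : ℝ) ^ 3 / 6) ∧
    ((H.filter (Dbl C)).card : ℝ) ≤ ε * ((Fintype.card V : ℝ) ^ 3 / 6) := by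
  obtain ⟨δ, hδ, h⟩ := err (ε / 6) (by positivity)
  refine ⟨δ, hδ, fun V _ _ H C m hS hm => ?_⟩
  have h0 := h V H C m hS hm
  set n : ℝ := (Fintype.card V : ℝ) with hn
  have hn0 : 0 ≤ n := by rw [hn]; positivity
  have hd0 : (0 : ℝ) ≤ ((dig C).card : ℝ) * n := by positivity
  refine ⟨?_, ?_, ?_⟩
  · have h1 := hS.cov_card
    have h2 := card_out_le (Art C) (art_oriented C)
    have h3 : (2 : ℝ) * (H.filter (Cov C)).card ≤
        (((univ : Finset (V × V × V)).filter fun p => Out (Art C) p.1 p.2.1 p.2.2).card : ℝ) +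
          2 * (n ^ 2 * (m : ℝ) ^ 2) + 2 * (((dig C).card : ℝ) * n) := by
      rw [hn]; exact_mod_cast h1
    rw [← hn] at h2
    linarith
  · -- Turán's bound
    set G := H.filter fun e => Jn C e ∧ (¬ ∃ x ∈ e, ∃ y ∈ e, (x, y) ∈ dig C) ∧
      ¬ ∃ x ∈ e, ∃ y ∈ e, ∃ z ∈ e, y ≠ z ∧ Arc C y x ∧ Arc C z x with hG
    have hGH : G ⊆ H := Finset.filter_subset _ _
    have h4 := fdf_sub (fun x y => Art C y x) (fun x y hxy hyx => art_oriented C y x hxy hyx) G
      (fun e he => hS.h3 e (hGH he)) (fun S hS4 => by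
        obtain ⟨e, he, he3, heH⟩ := hS.hK S hS4
        exact ⟨e, he, he3, fun hh => heH (hGH hh)⟩) (fun e he => by
        obtain ⟨heH, hJ, hD, hI⟩ := Finset.mem_filter.mp he
        intro x hx
        constructor
        · obtain ⟨y, hy, hyx, hxy⟩ := hJ x hx
          refine ⟨y, hy, hyx, ?_⟩
          have hnd : ¬ (Arc C x y ∧ Arc C y x) := by
            intro hh
            exact hD ⟨x, hx, y, hy, by simp only [dig, mem_filter, mem_univ, true_and]; exact hh⟩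
          unfold Art
          rcases hxy with hh | hh
          · exact Or.inr ⟨hh, fun h' => hnd ⟨hh, h'⟩⟩
          · exact Or.inl ⟨hh, fun h' => hnd ⟨h', hh⟩⟩
        · have hc : (e.erase x).card = 2 := by
            rw [Finset.card_erase_of_mem hx, hS.h3 e heH]
          obtain ⟨y, z, hyz, hyz2⟩ := Finset.card_eq_two.mp hc
          have hy : y ∈ e.erase x := by rw [hyz2]; simp
          have hz : z ∈ e.erase x := by rw [hyz2]; simp
          by_contra hcon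
          push Not at hcon
          refine hI ⟨x, hx, y, (Finset.mem_erase.mp hy).2, z, (Finset.mem_erase.mp hz).2, hyz, ?_, ?_⟩
          · exact (hcon y (Finset.mem_erase.mp hy).2 (Finset.mem_erase.mp hy).1).1
          · exact (hcon z (Finset.mem_erase.mp hz).2 (Finset.mem_erase.mp hz).1).1)
    have hsub : H.filter (Jn C) ⊆ (G ∪ (H.filter fun e => ∃ x ∈ e, ∃ y ∈ e, (x, y) ∈ dig C)) ∪
        (H.filter fun e => ∃ x ∈ e, ∃ y ∈ e, ∃ z ∈ e, y ≠ z ∧ Arc C y x ∧ Arc C z x) := by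
      intro e he
      obtain ⟨heH, hJ⟩ := Finset.mem_filter.mp he
      rw [Finset.mem_union, Finset.mem_union, hG, Finset.mem_filter, Finset.mem_filter,
        Finset.mem_filter]
      by_cases c1 : ∃ x ∈ e, ∃ y ∈ e, (x, y) ∈ dig C
      · exact Or.inl (Or.inr ⟨heH, c1⟩)
      · by_cases c2 : ∃ x ∈ e, ∃ y ∈ e, ∃ z ∈ e, y ≠ z ∧ Arc C y x ∧ Arc C z x
        · exact Or.inr ⟨heH, c2⟩
        · exact Or.inl (Or.inl ⟨heH, hJ, c1, c2⟩)
    have h5 := (Finset.card_le_card hsub).trans ((Finset.card_union_le _ _).trans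
      (Nat.add_le_add_right (Finset.card_union_le _ _) _))
    have h6 := hS.dig_edges
    have h7 := hS.in_edges
    have h8 : (H.filter (Jn C)).card ≤ G.card + (dig C).card * Fintype.card V +
        Fintype.card V ^ 2 * m ^ 2 := by omega
    have h9 : ((H.filter (Jn C)).card : ℝ) ≤ G.card + ((dig C).card : ℝ) * n +
        n ^ 2 * (m : ℝ) ^ 2 := by rw [hn]; exact_mod_cast h8
    rw [← hn] at h4
    linarith
  · have h1 : ((H.filter (Dbl C)).card : ℝ) ≤ n ^ 2 * (m : ℝ) ^ 2 := by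
      have h2 : (H.filter (Dbl C)).card ≤ Fintype.card V ^ 2 * m ^ 2 := by
        convert hS.double_edges
        exact Iff.rfl
      rw [hn]; exact_mod_cast h2
    linarith

end Pool.Agent.Helper44.LC
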