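import Pool.Agent.Helper44.LC.Loc

/-!
# The construction
-/

set_option autoImplicit false
set_option linter.unusedSectionVars false
open Finset
open scoped Classical

namespace Pool.Agent.Helper44.LC

section constr
variable {n : ℕ} (p : Fin n → ℕ)

/-- the edge colouring of a partition -/
def pc (x y : Fin n) : ℕ × ℕ × ℕ :=
  if p x < p y then (0, y.val, p x) else if p y < p x then (0, x.val, p y)
  else (1, min x.val y.val, max x.val y.val)

theorem pc_symm (x y : Fin n) : pc p x y = pc p y x := by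
  unfold pc
  by_cases h1 : p x < p y
  · rw [if_pos h1, if_neg (by omega), if_pos h1]
  · by_cases h2 : p y < p x
    · rw [if_neg h1, if_pos h2, if_pos h2]
    · rw [if_neg h1, if_neg h2, if_neg h2, if_neg h1, min_comm, max_comm]

theorem pc_lt {x y : Fin n} (h : p x < p y) : pc p x y = (0, y.val, p x) := by
  unfold pc; rw [if_pos h]

theorem pc_gt {x y : Fin n} (h : p y < p x) : pc p x y = (0, x.val, p y) := by
  unfold pc; rw [if_neg (by omega), if_pos h]

theorem pc_same {x y : Fin n} (h : p x = p y) :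
    pc p x y = (1, min x.val y.val, max x.val y.val) := by
  unfold pc; rw [if_neg (by omega), if_neg (by omega)]

theorem pc_eq {v x y : Fin n} (hxy : x ≠ y) (hxv : x ≠ v) (hyv : y ≠ v) :
    pc p v x = pc p v y ↔ p x = p y ∧ p x < p v := by
  have e1 : x.val ≠ y.val := fun h => hxy (Fin.ext h)
  have e2 : x.val ≠ v.val := fun h => hxv (Fin.ext h)
  have e3 : y.val ≠ v.val := fun h => hyv (Fin.ext h)
  rcases lt_trichotomy (p v) (p x) with h | h | h <;>
    rcases lt_trichotomy (p v) (p y) with h' | h' | h'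
  · rw [pc_lt p h, pc_lt p h', Prod.mk.injEq, Prod.mk.injEq]; omega
  · rw [pc_lt p h, pc_same p h', Prod.mk.injEq, Prod.mk.injEq]; omega
  · rw [pc_lt p h, pc_gt p h', Prod.mk.injEq, Prod.mk.injEq]; omega
  · rw [pc_same p h, pc_lt p h', Prod.mk.injEq, Prod.mk.injEq]; omega
  · rw [pc_same p h, pc_same p h', Prod.mk.injEq, Prod.mk.injEq]; omega
  · rw [pc_same p h, pc_gt p h', Prod.mk.injEq, Prod.mk.injEq]; omega
  · rw [pc_gt p h, pc_lt p h', Prod.mk.injEq, Prod.mk.injEq]; omega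
  · rw [pc_gt p h, pc_same p h', Prod.mk.injEq, Prod.mk.injEq]; omega
  · rw [pc_gt p h, pc_gt p h', Prod.mk.injEq, Prod.mk.injEq]; omega

theorem mem_seen {e : Finset (Fin n)} : e ∈ Seen (pc p) ↔
    ∃ v x y, x ≠ y ∧ p x = p y ∧ p x < p v ∧ e = {v, x, y} := by
  rw [mem_Seen]
  constructor
  · rintro ⟨h3, v, hv, x, hx, y, hy, hxy, hxv, hyv, hcol⟩
    obtain ⟨h1, h2⟩ := (pc_eq p hxy hxv hyv).mp hcol
    refine ⟨v, x, y, hxy, h1, h2, ?_⟩
    symm
    apply Finset.eq_of_subset_of_card_le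
    · intro w hw
      simp only [mem_insert, mem_singleton] at hw
      rcases hw with rfl | rfl | rfl
      · exact hv
      · exact hx
      · exact hy
    · rw [h3, card3.mpr ⟨hxv.symm, hyv.symm, hxy⟩]
  · rintro ⟨v, x, y, hxy, h1, h2, rfl⟩
    have hxv : x ≠ v := by rintro rfl; omega
    have hyv : y ≠ v := by rintro rfl; omega
    exact ⟨card3.mpr ⟨hxv.symm, hyv.symm, hxy⟩, v, by simp, x, by simp,
      y, by simp, hxy, hxv, hyv, (pc_eq p hxy hxv hyv).mpr ⟨h1, h2⟩⟩

theorem seen_pattern {a b c : Fin n} (h : ({a, b, c} : Finset (Fin n)) ∈ Seen (pc p)) :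
    (p a = p b ∧ p b < p c) ∨ (p a = p c ∧ p c < p b) ∨ (p b = p c ∧ p c < p a) := by
  have hc := seen_card h
  obtain ⟨n1, n2, n3⟩ := card3.mp hc
  obtain ⟨v, x, y, hxy, h1, h2, heq⟩ := (mem_seen p).mp h
  have hv : v = a ∨ v = b ∨ v = c := by
    have : v ∈ ({a, b, c} : Finset (Fin n)) := by rw [heq]; simp
    simpa using this
  have hx : x = a ∨ x = b ∨ x = c := by
    have : x ∈ ({a, b, c} : Finset (Fin n)) := by rw [heq]; simp
    simpa using this
  have hy : y = a ∨ y = b ∨ y = c := by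
    have : y ∈ ({a, b, c} : Finset (Fin n)) := by rw [heq]; simp
    simpa using this
  have hxv : x ≠ v := by rintro rfl; omega
  have hyv : y ≠ v := by rintro rfl; omega
  rcases hv with rfl | rfl | rfl <;> rcases hx with rfl | rfl | rfl <;>
    rcases hy with rfl | rfl | rfl <;>
    first
      | exact absurd rfl hxy
      | exact absurd rfl hxv
      | exact absurd rfl hyv
      | omega

theorem seen_kf : KF (Seen (pc p)) := by
  intro S hS
  obtain ⟨a, b, c, d, hab, hac, had, hbc, hbd, hcd, rfl⟩ := Finset.card_eq_four.mp hS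
  by_contra hcon
  push Not at hcon
  have h1 := hcon {a, b, c} (by intro z; simp only [mem_insert, mem_singleton]; tauto)
    (card3.mpr ⟨hab, hac, hbc⟩)
  have h2 := hcon {a, b, d} (by intro z; simp only [mem_insert, mem_singleton]; tauto)
    (card3.mpr ⟨hab, had, hbd⟩)
  have h3 := hcon {a, c, d} (by intro z; simp only [mem_insert, mem_singleton]; tauto)
    (card3.mpr ⟨hac, had, hcd⟩)
  have h4 := hcon {b, c, d} (by intro z; simp only [mem_insert, mem_singleton]; tauto)
    (card3.mpr ⟨hbc, hbd, hcd⟩)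
  have k1 := seen_pattern p h1
  have k2 := seen_pattern p h2
  have k3 := seen_pattern p h3
  have k4 := seen_pattern p h4
  omega

/-- the classes before the class of `v` -/
noncomputable def pC (v : Fin n) : Finset (Finset (Fin n)) :=
  (range (p v)).image fun i => univ.filter fun x => p x = i

theorem pC_setup (k : ℕ) (hk : ∀ x, p x ≤ k) : Setup (Seen (pc p)) (pC p) k := by
  refine ⟨fun e he => seen_card he, seen_kf p, ?_, ?_⟩
  · intro v A hA x hx y hy hxy
    simp only [pC, mem_image, mem_range] at hA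
    obtain ⟨i, hi, rfl⟩ := hA
    simp only [mem_filter, mem_univ, true_and] at hx hy
    exact (mem_seen p).mpr ⟨v, x, y, hxy, by omega, by omega, rfl⟩
  · intro v
    refine Finset.card_image_le.trans ?_
    rw [card_range]
    exact hk v

theorem pC_cov {e : Finset (Fin n)} (he : e ∈ Seen (pc p)) : Cov (pC p) e := by
  obtain ⟨v, x, y, hxy, h1, h2, rfl⟩ := (mem_seen p).mp he
  refine ⟨v, by simp, univ.filter fun z => p z = p x, ?_, ?_⟩
  · simp only [pC, mem_image, mem_range]
    exact ⟨p x, h2, rfl⟩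
  · intro w hw
    simp only [mem_erase, mem_insert, mem_singleton] at hw
    simp only [mem_filter, mem_univ, true_and]
    rcases hw.2 with rfl | rfl | rfl
    · exact absurd rfl hw.1
    · rfl
    · exact h1.symm

/-- ordered triples -/
noncomputable def pW : Finset (Fin n × Fin n × Fin n) :=
  univ.filter fun q => q.2.1 ≠ q.2.2 ∧ p q.2.1 = p q.2.2 ∧ p q.2.1 < p q.1

theorem pW_card : (pW p).card ≤ 2 * (Seen (pc p)).card := by
  refine Finset.card_le_mul_card_image_of_maps_to
    (f := fun q : Fin n × Fin n × Fin n => ({q.1, q.2.1, q.2.2} : Finset (Fin n))) ?_ 2 ?_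
  · rintro ⟨v, x, y⟩ hq
    simp only [pW, mem_filter, mem_univ, true_and] at hq
    exact (mem_seen p).mpr ⟨v, x, y, hq.1, hq.2.1, hq.2.2, rfl⟩
  · intro e he
    obtain ⟨v, x, y, hxy, h1, h2, rfl⟩ := (mem_seen p).mp he
    refine le_trans (Finset.card_le_card (t := {(v, x, y), (v, y, x)}) ?_) Finset.card_le_two
    rintro ⟨v', x', y'⟩ hq
    simp only [pW, mem_filter, mem_univ, true_and] at hq
    obtain ⟨⟨hxy', h1', h2'⟩, heq⟩ := hq
    have hv : v' = v ∨ v' = x ∨ v' = y := by
      have : v' ∈ ({v, x, y} : Finset (Fin n)) := by rw [← heq]; simp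
      simpa using this
    have hx : x' = v ∨ x' = x ∨ x' = y := by
      have : x' ∈ ({v, x, y} : Finset (Fin n)) := by rw [← heq]; simp
      simpa using this
    have hy : y' = v ∨ y' = x ∨ y' = y := by
      have : y' ∈ ({v, x, y} : Finset (Fin n)) := by rw [← heq]; simp
      simpa using this
    have hvv : v = v' ∨ v = x' ∨ v = y' := by
      have : v ∈ ({v', x', y'} : Finset (Fin n)) := by rw [heq]; simp
      simpa using this
    simp only [mem_insert, mem_singleton, Prod.mk.injEq]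
    rcases hv with rfl | rfl | rfl
    · rcases hx with rfl | rfl | rfl
      · exact absurd h2' (lt_irrefl _)
      · rcases hy with rfl | rfl | rfl
        · omega
        · exact absurd rfl hxy'
        · exact Or.inl ⟨rfl, rfl, rfl⟩
      · rcases hy with rfl | rfl | rfl
        · omega
        · exact Or.inr ⟨rfl, rfl, rfl⟩
        · exact absurd rfl hxy'
    · rcases hvv with rfl | rfl | rfl
      · exact absurd h2 (lt_irrefl _)
      · omega
      · omega
    · rcases hvv with rfl | rfl | rfl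
      · omega
      · omega
      · omega

end constr

section thresholds
variable {n : ℕ} (s : ℕ → ℕ) (k : ℕ)

/-- the partition given by thresholds -/
def tp (x : Fin n) : ℕ := ((range k).filter fun j => x.val < s (j + 1)).card

theorem tp_le (x : Fin n) : tp s k x ≤ k := by
  unfold tp
  refine (Finset.card_filter_le _ _).trans ?_
  rw [card_range]

theorem tp_eq (hs : Antitone s) {i : ℕ} (hi : i < k) {x : Fin n} (h1 : s (i + 1) ≤ x.val)
    (h2 : x.val < s i) : tp s k x = i := by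
  unfold tp
  have : (range k).filter (fun j => x.val < s (j + 1)) = range i := by
    ext j
    simp only [mem_filter, mem_range]
    constructor
    · rintro ⟨hj, hx⟩
      by_contra hcon
      push Not at hcon
      have := hs (show i + 1 ≤ j + 1 by omega)
      omega
    · intro hj
      refine ⟨by omega, ?_⟩
      have := hs (show j + 1 ≤ i by omega)
      omega
  rw [this, card_range]

theorem tp_gt (hs : Antitone s) {i : ℕ} (hi : i < k) {x : Fin n} (h1 : x.val < s (i + 1)) :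
    i < tp s k x := by
  unfold tp
  have : range (i + 1) ⊆ (range k).filter (fun j => x.val < s (j + 1)) := by
    intro j hj
    simp only [mem_filter, mem_range] at hj ⊢
    refine ⟨by omega, ?_⟩
    have := hs (show j + 1 ≤ i + 1 by omega)
    omega
  have := Finset.card_le_card this
  rw [card_range] at this
  omega

theorem card_interval (a b : ℕ) (hb : b ≤ n) :
    (univ.filter fun x : Fin n => a ≤ x.val ∧ x.val < b).card = b - a := by
  rw [← Nat.card_Ico]
  refine Finset.card_bij (fun x _ => x.val) ?_ ?_ ?_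
  · intro x hx
    simp only [mem_filter, mem_univ, true_and] at hx
    exact Finset.mem_Ico.mpr hx
  · intro x _ y _ h
    exact Fin.ext h
  · intro y hy
    have hy' := Finset.mem_Ico.mp hy
    exact ⟨⟨y, by omega⟩, by simp only [mem_filter, mem_univ, true_and]; exact hy', rfl⟩

theorem tp_count (hs : Antitone s) (h0 : s 0 = n) :
    ∑ i ∈ range k, s (i + 1) * ((s i - s (i + 1)) * (s i - s (i + 1)) - (s i - s (i + 1))) ≤
      2 * (Seen (pc (tp s k : Fin n → ℕ))).card := by
  refine le_trans ?_ (pW_card _)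
  have hle : ∀ i, s i ≤ n := fun i => by rw [← h0]; exact hs (Nat.zero_le i)
  let B : ℕ → Finset (Fin n × Fin n × Fin n) := fun i =>
    (univ.filter fun u : Fin n => 0 ≤ u.val ∧ u.val < s (i + 1)) ×ˢ
      ((univ.filter fun x : Fin n => s (i + 1) ≤ x.val ∧ x.val < s i).offDiag)
  have hB : ∀ i, (B i).card =
      s (i + 1) * ((s i - s (i + 1)) * (s i - s (i + 1)) - (s i - s (i + 1))) := by
    intro i
    simp only [B]
    rw [Finset.card_product, Finset.offDiag_card, card_interval _ _ (hle _),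
      card_interval _ _ (hle _), Nat.sub_zero]
  rw [← Finset.sum_congr rfl fun i _ => hB i, ← Finset.card_biUnion]
  · apply Finset.card_le_card
    rintro ⟨u, x, y⟩ hq
    simp only [B, mem_biUnion, mem_range, mem_product, mem_filter, mem_univ, true_and,
      mem_offDiag] at hq
    obtain ⟨i, hi, ⟨-, hu⟩, ⟨hx1, hx2⟩, ⟨hy1, hy2⟩, hxy⟩ := hq
    simp only [pW, mem_filter, mem_univ, true_and]
    have ex := tp_eq s k hs hi hx1 hx2
    have ey := tp_eq s k hs hi hy1 hy2
    have eu := tp_gt s k hs hi hu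
    exact ⟨hxy, by rw [ex, ey], by rw [ex]; exact eu⟩
  · intro i hi j hj hij
    rw [Function.onFun, Finset.disjoint_left]
    rintro ⟨u, x, y⟩ hq hq'
    simp only [B, mem_product, mem_filter, mem_univ, true_and, mem_offDiag] at hq hq'
    apply hij
    rw [← tp_eq s k hs (mem_range.mp hi) hq.2.1.1 hq.2.1.2,
      tp_eq s k hs (mem_range.mp hj) hq'.2.1.1 hq'.2.1.2]

end thresholds

/-- the ratio -/
noncomputable def rq : ℝ := (Real.sqrt 3 - 1) / 2

theorem rq_sq : rq ^ 2 = 1 / 2 - rq := by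
  unfold rq
  have h : Real.sqrt 3 ^ 2 = 3 := Real.sq_sqrt (by norm_num)
  linear_combination (1 / 4) * h

theorem rq_pos : 0 < rq := by
  unfold rq
  have h : Real.sqrt 3 ^ 2 = 3 := Real.sq_sqrt (by norm_num)
  have h0 : 0 ≤ Real.sqrt 3 := Real.sqrt_nonneg 3
  nlinarith

theorem rq_lt : rq < 1 := by
  have := rq_sq; have := rq_pos; nlinarith

theorem rq_cst : (1 - rq) ^ 2 * rq = cst / 3 * (1 - rq ^ 3) := by
  have h1 := rq_sq
  have h2 : cst = 4 * rq - 1 := by unfold cst rq; ring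
  rw [h2]
  have h3 : rq ^ 3 = 1 / 2 * rq - rq ^ 2 := by
    calc rq ^ 3 = rq * rq ^ 2 := by ring
      _ = rq * (1 / 2 - rq) := by rw [h1]
      _ = 1 / 2 * rq - rq ^ 2 := by ring
  nlinarith

theorem step_real {n q : ℝ} (hn : 0 ≤ n) (hq0 : 0 < q) (hq1 : q < 1) (i : ℕ) (S a : ℕ)
    (hS : q ^ (i + 1) * n ≤ S) (ha : q ^ i * (1 - q) * n - 1 ≤ a) :
    (1 - q) ^ 2 * q * (q ^ 3) ^ i * n ^ 3 - 3 * n ^ 2 ≤ ((S * (a * a - a) : ℕ) : ℝ) := by
  set b : ℝ := q ^ i * (1 - q) * n with hb
  have hqi : 0 ≤ q ^ i := by positivity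
  have hqi1 : q ^ i ≤ 1 := pow_le_one₀ hq0.le hq1.le
  have h1q : 0 ≤ 1 - q := by linarith
  have hb0 : 0 ≤ b := by positivity
  have hcast : ((a * a - a : ℕ) : ℝ) = (a : ℝ) * a - a := by
    rw [Nat.cast_sub (Nat.le_mul_self a)]; push_cast; ring
  have haa : 0 ≤ (a : ℝ) * a - a := by
    rw [← hcast]; positivity
  have h2 : b ^ 2 - 3 * b ≤ (a : ℝ) * a - a := by
    rcases le_or_gt 3 b with h | h
    · nlinarith
    · nlinarith
  push_cast
  rw [hcast]
  have h3 : q ^ (i + 1) * n * ((a : ℝ) * a - a) ≤ S * ((a : ℝ) * a - a) :=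
    mul_le_mul_of_nonneg_right hS haa
  have h4 : q ^ (i + 1) * n * (b ^ 2 - 3 * b) ≤ q ^ (i + 1) * n * ((a : ℝ) * a - a) :=
    mul_le_mul_of_nonneg_left h2 (by positivity)
  have h5 : q ^ (i + 1) * n * b ≤ n ^ 2 := by
    have h6 : b ≤ n := by
      calc b = q ^ i * (1 - q) * n := hb
        _ ≤ 1 * 1 * n := by
          apply mul_le_mul_of_nonneg_right _ hn
          exact mul_le_mul hqi1 (by linarith) h1q zero_le_one
        _ = n := by ring
    have h7 : q ^ (i + 1) * n ≤ n := by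
      calc q ^ (i + 1) * n ≤ 1 * n :=
            mul_le_mul_of_nonneg_right (pow_le_one₀ hq0.le hq1.le) hn
        _ = n := one_mul _
    calc q ^ (i + 1) * n * b ≤ n * n := mul_le_mul h7 h6 hb0 hn
      _ = n ^ 2 := by ring
  have h8 : q ^ (i + 1) * n * b ^ 2 = (1 - q) ^ 2 * q * (q ^ 3) ^ i * n ^ 3 := by
    rw [hb, ← pow_mul, pow_succ]
    have : q ^ (3 * i) = q ^ i * q ^ i * q ^ i := by rw [← pow_add, ← pow_add]; congr 1; ring
    rw [this]; ring
  nlinarith

/-- **Sharpness.** -/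
theorem sharp (ε : ℝ) (hε : 0 < ε) : ∃ m N : ℕ, ∀ n : ℕ, N ≤ n →
    ∃ (col : Fin n → Fin n → ℕ × ℕ × ℕ) (C : Fin n → Finset (Finset (Fin n))),
      (∀ x y, col x y = col y x) ∧ Setup (Seen col) C m ∧ (∀ e ∈ Seen col, Cov C e) ∧
      (cst - ε) * ((n : ℝ) ^ 3 / 6) ≤ (Seen col).card := by
  have hq0 := rq_pos
  have hq1 := rq_lt
  have hc := cst_pos
  -- the number of classes
  obtain ⟨k, hk⟩ : ∃ k : ℕ, cst * (rq ^ 3) ^ k ≤ ε / 2 := by
    have h1 : rq ^ 3 < 1 := pow_lt_one₀ hq0.le hq1 (by norm_num)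
    obtain ⟨k, hk⟩ := exists_pow_lt_of_lt_one (show 0 < ε / 2 / cst by positivity) h1
    refine ⟨k, ?_⟩
    rw [lt_div_iff₀ hc] at hk
    linarith
  refine ⟨k, ⌈18 * (k : ℝ) / ε⌉₊, fun n hn => ?_⟩
  set s : ℕ → ℕ := fun j => ⌈rq ^ j * (n : ℝ)⌉₊ with hs
  have hn0 : (0 : ℝ) ≤ n := by positivity
  have hanti : Antitone s := by
    intro i j hij
    simp only [hs]
    apply Nat.ceil_le_ceil
    apply mul_le_mul_of_nonneg_right _ hn0
    exact pow_le_pow_of_le_one hq0.le hq1.le hij
  have hs0 : s 0 = n := by simp [hs]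
  have hcount := tp_count (n := n) s k hanti hs0
  refine ⟨pc (tp s k), pC (tp s k), pc_symm _, pC_setup _ k (tp_le s k), fun e he => pC_cov _ he, ?_⟩
  have h1 : ∀ i ∈ range k, (1 - rq) ^ 2 * rq * (rq ^ 3) ^ i * (n : ℝ) ^ 3 - 3 * (n : ℝ) ^ 2 ≤
      ((s (i + 1) * ((s i - s (i + 1)) * (s i - s (i + 1)) - (s i - s (i + 1))) : ℕ) : ℝ) := by
    intro i _
    apply step_real hn0 hq0 hq1
    · simp only [hs]; exact Nat.le_ceil _
    · rw [Nat.cast_sub (hanti (Nat.le_succ i))]
      have h2 : rq ^ i * (n : ℝ) ≤ (s i : ℝ) := by simp only [hs]; exact Nat.le_ceil _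
      have h3 : (s (i + 1) : ℝ) ≤ rq ^ (i + 1) * (n : ℝ) + 1 := by
        simp only [hs]
        exact (Nat.ceil_lt_add_one (by positivity)).le
      have h4 : rq ^ (i + 1) * (n : ℝ) = rq ^ i * rq * n := by rw [pow_succ]
      linarith
  have h2 := Finset.sum_le_sum h1
  have h3 : ∑ i ∈ range k, ((s (i + 1) * ((s i - s (i + 1)) * (s i - s (i + 1)) -
      (s i - s (i + 1))) : ℕ) : ℝ) ≤ 2 * ((Seen (pc (tp s k : Fin n → ℕ))).card : ℝ) := by
    exact_mod_cast hcount
  have h4 : ∑ i ∈ range k, ((1 - rq) ^ 2 * rq * (rq ^ 3) ^ i * (n : ℝ) ^ 3 - 3 * (n : ℝ) ^ 2) =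
      cst / 3 * (1 - (rq ^ 3) ^ k) * (n : ℝ) ^ 3 - k * (3 * (n : ℝ) ^ 2) := by
    rw [Finset.sum_sub_distrib, sum_const, card_range, nsmul_eq_mul]
    congr 1
    rw [← Finset.sum_mul, ← Finset.mul_sum, rq_cst]
    congr 1
    have h5 := geom_sum_mul (rq ^ 3) k
    have h6 : (∑ i ∈ range k, (rq ^ 3) ^ i) * (1 - rq ^ 3) = 1 - (rq ^ 3) ^ k := by
      linear_combination -h5
    rw [mul_assoc, mul_comm (1 - rq ^ 3), h6]
  have h5 : cst / 3 * (1 - (rq ^ 3) ^ k) * (n : ℝ) ^ 3 - k * (3 * (n : ℝ) ^ 2) ≤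
      2 * ((Seen (pc (tp s k : Fin n → ℕ))).card : ℝ) := by
    rw [← h4]; exact h2.trans h3
  have h6 : 18 * (k : ℝ) ≤ ε * n := by
    have h7 : 18 * (k : ℝ) / ε ≤ n := (Nat.le_ceil _).trans (by exact_mod_cast hn)
    rw [div_le_iff₀ hε] at h7; linarith
  have h8 : (k : ℝ) * (3 * (n : ℝ) ^ 2) ≤ ε / 6 * (n : ℝ) ^ 3 := by
    have : 18 * (k : ℝ) * (n : ℝ) ^ 2 ≤ ε * n * (n : ℝ) ^ 2 :=
      mul_le_mul_of_nonneg_right h6 (by positivity)
    nlinarith
  have h9 : cst * (rq ^ 3) ^ k * (n : ℝ) ^ 3 ≤ ε / 2 * (n : ℝ) ^ 3 :=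
    mul_le_mul_of_nonneg_right hk (by positivity)
  nlinarith

end Pool.Agent.Helper44.LC
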