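import Mathlib

/-!
# Induced out-stars in oriented graphs

Weighted form of the bound `2 √3 - 3` for the density of triples `v, x, y` with arcs from `v` to
`x` and `y` and no arc between `x` and `y`.
-/

set_option autoImplicit false
open Finset
open scoped Classical

namespace Pool.Agent.Helper44.LC

/-- The constant. -/
noncomputable def cst : ℝ := 2 * Real.sqrt 3 - 3

theorem cst_sq : cst ^ 2 + 6 * cst - 3 = 0 := by
  unfold cst
  have h : Real.sqrt 3 ^ 2 = 3 := Real.sq_sqrt (by norm_num)
  nlinarith

theorem cst_pos : 0 < cst := by
  unfold cst
  have h : Real.sqrt 3 ^ 2 = 3 := Real.sq_sqrt (by norm_num)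
  have h0 : 0 ≤ Real.sqrt 3 := Real.sqrt_nonneg 3
  nlinarith

/-- The scalar inequality. -/
theorem scalar {s x : ℝ} (hx : 0 ≤ x) :
    x ^ 2 * (s - x) + cst / 3 * (s - x) ^ 3 ≤ cst / 3 * s ^ 3 := by
  have hc := cst_sq
  have hp := cst_pos
  have key : 0 ≤ cst * s ^ 2 - (1 + cst) * s * x + (1 + cst / 3) * x ^ 2 := by
    have h1 : 4 * (1 + cst / 3) * (cst * s ^ 2 - (1 + cst) * s * x + (1 + cst / 3) * x ^ 2) =
        (2 * (1 + cst / 3) * x - (1 + cst) * s) ^ 2 := by
      have : (1 + cst) ^ 2 = 4 * cst * (1 + cst / 3) := by nlinarith
      linear_combination (-s ^ 2) * this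
    have h2 : 0 ≤ 4 * (1 + cst / 3) * (cst * s ^ 2 - (1 + cst) * s * x + (1 + cst / 3) * x ^ 2) := by
      rw [h1]; positivity
    have h3 : 0 < 4 * (1 + cst / 3) := by positivity
    exact nonneg_of_mul_nonneg_right h2 h3
  have h4 : 0 ≤ x * (cst * s ^ 2 - (1 + cst) * s * x + (1 + cst / 3) * x ^ 2) :=
    mul_nonneg hx key
  nlinarith [h4]

variable {V : Type} [Fintype V]

/-- The triple `(v, x, y)` is an out-star: arcs from `v` to `x` and `y`, which are not adjacent
(they may be equal). -/
def Out (A : V → V → Prop) (v x y : V) : Prop := A v x ∧ A v y ∧ ¬ A x y ∧ ¬ A y x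

/-- The weight of the out-stars. -/
noncomputable def Q (A : V → V → Prop) (w : V → ℝ) : ℝ :=
  ∑ v, ∑ x, ∑ y, if Out A v x y then w v * w x * w y else 0

/-- The direction `e_a - e_b`. -/
noncomputable def dir (a b : V) (x : V) : ℝ := (if x = a then 1 else 0) - (if x = b then 1 else 0)

theorem Q_line (A : V → V → Prop) (hA : ∀ x y, A x y → ¬ A y x) (w : V → ℝ)
    (hw : ∀ v, 0 ≤ w v) (a b : V) (h1 : ¬ A a b) (h2 : ¬ A b a) :
    ∃ p q : ℝ, 0 ≤ q ∧ ∀ t : ℝ, Q A (fun v => w v + t * dir a b v) = Q A w + t * p + t ^ 2 * q := by
  have hirr : ∀ x, ¬ A x x := fun x h => hA x x h h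
  have hd : ∀ x, dir a b x ≠ 0 → x = a ∨ x = b := by
    intro x hx
    by_contra hcon
    push Not at hcon
    apply hx
    simp [dir, hcon.1, hcon.2]
  have hzero : ∀ x y, A x y → dir a b x * dir a b y = 0 := by
    intro x y hxy
    by_contra hne
    rcases hd x (left_ne_zero_of_mul hne) with rfl | rfl <;>
      rcases hd y (right_ne_zero_of_mul hne) with rfl | rfl
    · exact hirr _ hxy
    · exact h1 hxy
    · exact h2 hxy
    · exact hirr _ hxy
  refine ⟨∑ v, ∑ x, ∑ y, if Out A v x y then
      dir a b v * w x * w y + w v * dir a b x * w y + w v * w x * dir a b y else 0,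
    ∑ v, ∑ x, ∑ y, if Out A v x y then w v * dir a b x * dir a b y else 0, ?_, ?_⟩
  · refine Finset.sum_nonneg fun v _ => ?_
    have h3 : ∑ x, ∑ y, (if Out A v x y then w v * dir a b x * dir a b y else 0) =
        w v * (∑ x, if A v x then dir a b x else 0) ^ 2 := by
      rw [sq, Finset.sum_mul_sum, Finset.mul_sum]
      refine Finset.sum_congr rfl fun x _ => ?_
      rw [Finset.mul_sum]
      refine Finset.sum_congr rfl fun y _ => ?_
      by_cases hx : A v x
      · by_cases hy : A v y
        · by_cases hxy : A x y ∨ A y x
          · have h4 : dir a b x * dir a b y = 0 := by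
              rcases hxy with h | h
              · exact hzero x y h
              · rw [mul_comm]; exact hzero y x h
            have h5 : ¬ Out A v x y := by
              unfold Out; tauto
            rw [if_neg h5, if_pos hx, if_pos hy, h4, mul_zero]
          · have h5 : Out A v x y := by
              unfold Out; tauto
            rw [if_pos h5, if_pos hx, if_pos hy]; ring
        · have h5 : ¬ Out A v x y := by
            unfold Out; tauto
          rw [if_neg h5, if_neg hy]; ring
      · have h5 : ¬ Out A v x y := by
          unfold Out; tauto
        rw [if_neg h5, if_neg hx]; ring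
    rw [h3]
    exact mul_nonneg (hw v) (sq_nonneg _)
  · intro t
    unfold Q
    rw [Finset.mul_sum, Finset.mul_sum, ← Finset.sum_add_distrib, ← Finset.sum_add_distrib]
    refine Finset.sum_congr rfl fun v _ => ?_
    rw [Finset.mul_sum, Finset.mul_sum, ← Finset.sum_add_distrib, ← Finset.sum_add_distrib]
    refine Finset.sum_congr rfl fun x _ => ?_
    rw [Finset.mul_sum, Finset.mul_sum, ← Finset.sum_add_distrib, ← Finset.sum_add_distrib]
    refine Finset.sum_congr rfl fun y _ => ?_
    by_cases h : Out A v x y
    · simp only [if_pos h]
      have h3 := hzero v x h.1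
      have h4 := hzero v y h.2.1
      linear_combination (t ^ 2 * w y + t ^ 3 * dir a b y) * h3 + (t ^ 2 * w x) * h4
    · simp only [if_neg h]; ring

/-- The weighted bound. -/
theorem Q_le_aux (A : V → V → Prop) (hA : ∀ x y, A x y → ¬ A y x) (k : ℕ) :
    ∀ w : V → ℝ, (∀ v, 0 ≤ w v) → (univ.filter fun v => w v ≠ 0).card ≤ k →
      Q A w ≤ cst / 3 * (∑ v, w v) ^ 3 := by
  have hirr : ∀ x, ¬ A x x := fun x h => hA x x h h
  induction k with
  | zero =>
    intro w hw hk
    have h0 : ∀ v, w v = 0 := by
      intro v
      by_contra hv
      have : v ∈ univ.filter fun v => w v ≠ 0 := by simp [hv]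
      rw [Nat.le_zero, Finset.card_eq_zero] at hk
      rw [hk] at this
      simp at this
    have h1 : Q A w = 0 := by
      unfold Q
      refine Finset.sum_eq_zero fun v _ => Finset.sum_eq_zero fun x _ =>
        Finset.sum_eq_zero fun y _ => ?_
      simp [h0]
    rw [h1]
    have : 0 ≤ ∑ v, w v := Finset.sum_nonneg fun v _ => hw v
    have := cst_pos
    positivity
  | succ k ih =>
    intro w hw hk
    by_cases hadj : ∃ a b, a ≠ b ∧ w a ≠ 0 ∧ w b ≠ 0 ∧ ¬ A a b ∧ ¬ A b a
    · -- two nonadjacent vertices
      obtain ⟨a, b, hab, ha, hb, h1, h2⟩ := hadj
      obtain ⟨p, q, hq, hline⟩ := Q_line A hA w hw a b h1 h2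
      -- a general step
      have step : ∀ t : ℝ, 0 ≤ t * p → (∀ v, 0 ≤ w v + t * dir a b v) →
          (∃ v, w v ≠ 0 ∧ w v + t * dir a b v = 0) → Q A w ≤ cst / 3 * (∑ v, w v) ^ 3 := by
        intro t htp hnn hz
        have h3 : Q A w ≤ Q A (fun v => w v + t * dir a b v) := by
          rw [hline t]
          have : 0 ≤ t ^ 2 * q := mul_nonneg (sq_nonneg _) hq
          linarith
        refine h3.trans ?_
        have h4 : ∑ v, (w v + t * dir a b v) = ∑ v, w v := by
          rw [Finset.sum_add_distrib, ← Finset.mul_sum]
          have : ∑ v, dir a b v = 0 := by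
            unfold dir
            rw [Finset.sum_sub_distrib]
            simp
          rw [this, mul_zero, add_zero]
        rw [← h4]
        refine ih _ hnn ?_
        obtain ⟨v0, hv0, hv0'⟩ := hz
        have h5 : (univ.filter fun v => w v + t * dir a b v ≠ 0) ⊂
            (univ.filter fun v => w v ≠ 0) := by
          rw [Finset.ssubset_iff_of_subset]
          · exact ⟨v0, by simp [hv0], by simp [hv0']⟩
          · intro v hv
            simp only [mem_filter, mem_univ, true_and] at hv ⊢
            intro hw0
            apply hv
            have : dir a b v = 0 := by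
              by_contra hne
              unfold dir at hne
              by_cases hva : v = a
              · rw [hva] at hw0; exact ha hw0
              · by_cases hvb : v = b
                · rw [hvb] at hw0; exact hb hw0
                · simp [hva, hvb] at hne
            rw [hw0, this]; ring
        have := Finset.card_lt_card h5
        omega
      have hba : b ≠ a := fun h => hab h.symm
      rcases le_total 0 p with hp | hp
      · -- move the weight of `b` to `a`
        refine step (w b) (mul_nonneg (hw b) hp) ?_ ⟨b, hb, ?_⟩
        · intro v
          unfold dir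
          by_cases hva : v = a
          · subst hva
            simp only [if_true, if_neg hab]
            have := hw v; have := hw b; nlinarith
          · by_cases hvb : v = b
            · subst hvb; simp [hva]
            · simp [hva, hvb, hw v]
        · simp [dir, hba]
      · refine step (-w a) (by nlinarith [hw a]) ?_ ⟨a, ha, ?_⟩
        · intro v
          unfold dir
          by_cases hva : v = a
          · subst hva
            simp [hab]
          · by_cases hvb : v = b
            · subst hvb
              simp only [if_neg hva, if_true]
              have := hw v; have := hw a; nlinarith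
            · simp [hva, hvb, hw v]
        · simp [dir, hab]
    · -- the support is a tournament
      push Not at hadj
      by_cases hemp : ∃ v, w v ≠ 0
      swap
      · push Not at hemp
        have h1 : Q A w = 0 := by
          unfold Q
          refine Finset.sum_eq_zero fun v _ => Finset.sum_eq_zero fun x _ =>
            Finset.sum_eq_zero fun y _ => ?_
          simp [hemp]
        rw [h1]
        have : 0 ≤ ∑ v, w v := Finset.sum_nonneg fun v _ => hw v
        have := cst_pos
        positivity
      obtain ⟨v1, hv1⟩ := hemp
      obtain ⟨m, -, hm⟩ := Finset.exists_max_image univ w ⟨v1, mem_univ v1⟩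
      have hm0 : w m ≠ 0 := by
        intro h0
        apply hv1
        have := hm v1 (mem_univ _)
        have := hw v1
        linarith
      set w0 : V → ℝ := fun v => if v = m then 0 else w v with hw0
      have hw0nn : ∀ v, 0 ≤ w0 v := by
        intro v; simp only [hw0]; split_ifs
        · exact le_rfl
        · exact hw v
      have hcard : (univ.filter fun v => w0 v ≠ 0).card ≤ k := by
        have h5 : (univ.filter fun v => w0 v ≠ 0) ⊂ (univ.filter fun v => w v ≠ 0) := by
          rw [Finset.ssubset_iff_of_subset]
          · exact ⟨m, by simp [hm0], by simp [hw0]⟩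
          · intro v hv
            simp only [mem_filter, mem_univ, true_and, hw0] at hv ⊢
            by_cases hvm : v = m
            · simp [hvm] at hv
            · simpa [hvm] using hv
        have := Finset.card_lt_card h5
        omega
      have hih := ih w0 hw0nn hcard
      have hsum0 : ∑ v, w0 v = (∑ v, w v) - w m := by
        have : ∀ v, w0 v = w v - (if v = m then w m else 0) := by
          intro v; simp only [hw0]
          by_cases hvm : v = m
          · subst hvm; simp
          · simp [hvm]
        rw [Finset.sum_congr rfl fun v _ => this v, Finset.sum_sub_distrib]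
        simp
      -- the quadratic form of the tournament
      have hQ : Q A w ≤ (∑ v, ∑ x, if A v x then w v * w x ^ 2 else 0) := by
        unfold Q
        refine Finset.sum_le_sum fun v _ => Finset.sum_le_sum fun x _ => ?_
        have h6 : ∀ y, (if Out A v x y then w v * w x * w y else 0) ≤
            (if y = x then (if A v x then w v * w x ^ 2 else 0) else 0) := by
          intro y
          by_cases hyx : y = x
          · subst hyx
            rw [if_pos rfl]
            by_cases ho : Out A v y y
            · rw [if_pos ho, if_pos ho.1]; apply le_of_eq; ring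
            · have : ¬ A v y := by
                intro h; exact ho ⟨h, h, hirr _, hirr _⟩
              rw [if_neg ho, if_neg this]
          · rw [if_neg hyx]
            by_cases ho : Out A v x y
            · rw [if_pos ho]
              by_cases hx0 : w x = 0
              · simp [hx0]
              · by_cases hy0 : w y = 0
                · simp [hy0]
                · exact absurd (hadj x y (fun h => hyx h.symm) hx0 hy0 ho.2.2.1) ho.2.2.2
            · rw [if_neg ho]
        refine (Finset.sum_le_sum fun y _ => h6 y).trans ?_
        simp
      have hQ0 : (∑ v, ∑ x, if A v x then w0 v * w0 x ^ 2 else 0) ≤ Q A w0 := by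
        unfold Q
        refine Finset.sum_le_sum fun v _ => Finset.sum_le_sum fun x _ => ?_
        have h7 : (if A v x then w0 v * w0 x ^ 2 else 0) ≤
            (if Out A v x x then w0 v * w0 x * w0 x else 0) := by
          by_cases h : A v x
          · rw [if_pos h, if_pos ⟨h, h, hirr _, hirr _⟩]; apply le_of_eq; ring
          · have : ¬ Out A v x x := fun ho => h ho.1
            rw [if_neg h, if_neg this]
        refine h7.trans ?_
        refine Finset.single_le_sum (f := fun y => if Out A v x y then w0 v * w0 x * w0 y else 0)
          (fun y _ => ?_) (mem_univ x)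
        split_ifs
        · exact mul_nonneg (mul_nonneg (hw0nn _) (hw0nn _)) (hw0nn _)
        · exact le_rfl
      have hrec : (∑ v, ∑ x, if A v x then w v * w x ^ 2 else 0) ≤
          (∑ v, ∑ x, if A v x then w0 v * w0 x ^ 2 else 0) +
            w m ^ 2 * ((∑ v, w v) - w m) := by
        have h8 : ∀ v x, (if A v x then w v * w x ^ 2 else 0) ≤
            (if A v x then w0 v * w0 x ^ 2 else 0) +
              ((if x = m then (if A v m then w v * w m ^ 2 else 0) else 0) +
               (if v = m then (if A m x then w x * w m ^ 2 else 0) else 0)) := by
          intro v x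
          by_cases h : A v x
          · rw [if_pos h, if_pos h]
            by_cases hxm : x = m
            · subst hxm
              have hvm : v ≠ x := fun hh => hirr x (hh ▸ h)
              simp [h, hvm, hw0]
            · by_cases hvm : v = m
              · subst hvm
                simp only [hw0, if_neg hxm, if_true, if_pos h, zero_mul, zero_add]
                have h9 := hm x (mem_univ x)
                have := hw x
                have := hw v
                nlinarith [mul_nonneg (hw x) (hw v)]
              · simp [hw0, hxm, hvm]
          · rw [if_neg h, if_neg h]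
            have e1 : 0 ≤ (if x = m then (if A v m then w v * w m ^ 2 else 0) else 0) := by
              split_ifs
              · exact mul_nonneg (hw v) (sq_nonneg _)
              · exact le_rfl
              · exact le_rfl
            have e2 : 0 ≤ (if v = m then (if A m x then w x * w m ^ 2 else 0) else 0) := by
              split_ifs
              · exact mul_nonneg (hw x) (sq_nonneg _)
              · exact le_rfl
              · exact le_rfl
            linarith
        refine (Finset.sum_le_sum fun v _ => Finset.sum_le_sum fun x _ => h8 v x).trans ?_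
        simp only [Finset.sum_add_distrib]
        have e3 : ∑ v, ∑ x, (if x = m then (if A v m then w v * w m ^ 2 else 0) else 0) =
            ∑ v, (if A v m then w v * w m ^ 2 else 0) := by
          refine Finset.sum_congr rfl fun v _ => ?_
          simp
        have e4 : ∑ v, ∑ x, (if v = m then (if A m x then w x * w m ^ 2 else 0) else 0) =
            ∑ x, (if A m x then w x * w m ^ 2 else 0) := by
          rw [Finset.sum_comm]
          refine Finset.sum_congr rfl fun x _ => ?_
          simp
        rw [e3, e4, ← Finset.sum_add_distrib]
        have e5 : ∀ v, ((if A v m then w v * w m ^ 2 else 0) +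
            (if A m v then w v * w m ^ 2 else 0)) ≤ w m ^ 2 * w0 v := by
          intro v
          by_cases hvm : v = m
          · subst hvm; simp [hirr, hw0]
          · have hnn : 0 ≤ w v * w m ^ 2 := mul_nonneg (hw v) (sq_nonneg _)
            simp only [hw0, if_neg hvm]
            by_cases ha : A v m
            · rw [if_pos ha, if_neg (hA _ _ ha)]; apply le_of_eq; ring
            · rw [if_neg ha]
              split_ifs
              · apply le_of_eq; ring
              · nlinarith
        have e6 := Finset.sum_le_sum fun v (_ : v ∈ univ) => e5 v
        rw [← Finset.mul_sum, hsum0] at e6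
        linarith
      have hs := scalar (s := ∑ v, w v) (hw m)
      rw [hsum0] at hih
      linarith

/-- **Weighted out-star bound.** -/
theorem Q_le (A : V → V → Prop) (hA : ∀ x y, A x y → ¬ A y x) (w : V → ℝ) (hw : ∀ v, 0 ≤ w v) :
    Q A w ≤ cst / 3 * (∑ v, w v) ^ 3 :=
  Q_le_aux A hA _ w hw le_rfl

/-- The number of ordered out-stars with distinct leaves. -/
theorem card_out_le (A : V → V → Prop) (hA : ∀ x y, A x y → ¬ A y x) :
    (((univ : Finset (V × V × V)).filter fun p => Out A p.1 p.2.1 p.2.2).card : ℝ) ≤
      cst / 3 * (Fintype.card V : ℝ) ^ 3 := by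
  have h := Q_le A hA (fun _ => 1) (fun _ => zero_le_one)
  have h1 : (∑ _v : V, (1 : ℝ)) = Fintype.card V := by simp
  rw [h1] at h
  refine le_trans (le_of_eq ?_) h
  rw [Finset.card_filter]
  push_cast
  unfold Q
  rw [Fintype.sum_prod_type]
  refine Finset.sum_congr rfl fun v _ => ?_
  rw [Fintype.sum_prod_type]
  refine Finset.sum_congr rfl fun x _ => Finset.sum_congr rfl fun y _ => ?_
  simp

end Pool.Agent.Helper44.LC
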